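import Pool.Agent.Helper923.PNT

/-! A prime in `(a M, b M]` which does not divide `d`, when `log d ≤ M` and `b - a > 1`. -/

open Finset Filter Topology

namespace Pool.Agent.TH120.ZE

theorem prime_sel (a b : ℝ) (ha : 0 < a) (hab : 1 < b - a) : ∃ M0 : ℕ, ∀ M : ℕ, M0 ≤ M → ∀ d : ℕ, d ≠ 0 →
    Real.log d ≤ M → ∃ p : ℕ, p.Prime ∧ a * M < p ∧ (p : ℝ) ≤ b * M ∧ ¬ p ∣ d := by
  classical
  have hb : 0 < b := by linarith
  set ε : ℝ := (b - a - 1) / (2 * (a + b)) with hε
  have hε0 : 0 < ε := by rw [hε]; apply div_pos <;> linarith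
  have hεab : ε * (a + b) = (b - a - 1) / 2 := by
    rw [hε]
    field_simp
  have h0 := Pool.Agent.Helper923.PNT.theta_div_tendsto
  have t1 : Tendsto (fun M : ℕ => a * (M : ℝ)) atTop atTop :=
    tendsto_natCast_atTop_atTop.const_mul_atTop ha
  have t2 : Tendsto (fun M : ℕ => b * (M : ℝ)) atTop atTop :=
    tendsto_natCast_atTop_atTop.const_mul_atTop hb
  have h1 := (h0.comp t1).eventually (gt_mem_nhds (show (1 : ℝ) < 1 + ε by linarith))
  have h2 := (h0.comp t2).eventually (lt_mem_nhds (show (1 : ℝ) - ε < 1 by linarith))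
  obtain ⟨M0, hM0⟩ := eventually_atTop.1 (h1.and (h2.and (eventually_ge_atTop 1)))
  refine ⟨M0, fun M hM d hd hlog => ?_⟩
  obtain ⟨g1, g2, g3⟩ := hM0 M hM
  have hMr : (1 : ℝ) ≤ M := by exact_mod_cast g3
  have hM0' : (0 : ℝ) < M := by linarith
  simp only [Function.comp] at g1 g2
  rw [div_lt_iff₀ (by positivity)] at g1
  rw [lt_div_iff₀ (by positivity)] at g2
  by_contra hcon
  push Not at hcon
  have hle : ⌊a * (M : ℝ)⌋₊ ≤ ⌊b * (M : ℝ)⌋₊ := Nat.floor_le_floor (by nlinarith)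
  set S := (Ioc ⌊a * (M : ℝ)⌋₊ ⌊b * (M : ℝ)⌋₊).filter Nat.Prime with hS
  have hsplit : Chebyshev.theta (b * M) = Chebyshev.theta (a * M) + ∑ p ∈ S, Real.log p := by
    unfold Chebyshev.theta
    rw [hS, ← Finset.sum_union]
    · congr 1
      rw [← Finset.filter_union, Finset.Ioc_union_Ioc_eq_Ioc (Nat.zero_le _) hle]
    · apply Finset.disjoint_filter_filter
      rw [Finset.disjoint_left]
      intro x hx hx'
      rw [mem_Ioc] at hx hx'
      omega
  have hdvd : ∏ q ∈ S, q ∣ d := by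
    apply Finset.prod_primes_dvd
    · intro q hq
      exact (mem_filter.1 hq).2.prime
    · intro q hq
      rw [hS, mem_filter, mem_Ioc] at hq
      exact hcon q hq.2 ((Nat.floor_lt (by positivity)).1 hq.1.1)
        ((Nat.le_floor_iff (by positivity)).1 hq.1.2)
  have hled : ∏ q ∈ S, q ≤ d := Nat.le_of_dvd (Nat.pos_of_ne_zero hd) hdvd
  have hsum : ∑ p ∈ S, Real.log p ≤ M := by
    refine le_trans ?_ hlog
    rw [← Real.log_prod (fun p hp => by
      have := (mem_filter.1 hp).2.pos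
      positivity)]
    apply Real.log_le_log
    · exact Finset.prod_pos fun p hp => by
        have := (mem_filter.1 hp).2.pos
        exact_mod_cast this
    · have h5 : ((∏ q ∈ S, q : ℕ) : ℝ) ≤ (d : ℝ) := Nat.cast_le.2 hled
      rw [Nat.cast_prod] at h5
      exact h5
  have h3 : (1 - ε) * (b * M) - (1 + ε) * (a * M) ≤ M := by linarith
  have h4 : (1 - ε) * (b * M) - (1 + ε) * (a * M) = (b - a) * M - (ε * (a + b)) * M := by ring
  rw [h4, hεab] at h3
  nlinarith

end Pool.Agent.TH120.ZE
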