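import Pool.Agent.TH120.ZE.R3

/-! The pole functional, assembly. -/

open Polynomial Pool.Agent.H337R2 Filter Topology

namespace Pool.Agent.TH120.ZE

noncomputable section

open Pool.Agent.ZF Pool.Agent.ZF.Mea

lemma choose_le_exp (N r : ℕ) (hr : r ≤ N) (p q : ℝ) (hp : 0 < p) (hq : 0 < q) (hpq : p⁻¹ + q⁻¹ = 1) :
    (N.choose r : ℝ) ≤ Real.exp (r * Real.log p + (N - r : ℕ) * Real.log q) := by
  have h := binom_le N r hr p⁻¹ q⁻¹ (by positivity) (by positivity) hpq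
  rw [Real.exp_add, Real.exp_nat_mul, Real.exp_nat_mul, Real.exp_log hp, Real.exp_log hq]
  have e : p⁻¹ ^ r * q⁻¹ ^ (N - r) = (p ^ r * q ^ (N - r))⁻¹ := by
    rw [inv_pow, inv_pow, mul_inv]
  rw [e, ← div_eq_mul_inv, div_le_one (by positivity)] at h
  exact h

lemma prod_desc (k m : ℕ) (hm : m < k) :
    ∏ j ∈ Finset.Icc 1 m, |-(k : ℝ) + j| = (((k - 1).descFactorial m : ℕ) : ℝ) := by
  induction m with
  | zero => simp
  | succ m ih =>
    rw [Finset.prod_Icc_succ_top (by omega), ih (by omega), Nat.descFactorial_succ]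
    have h : ((k - 1 - m : ℕ) : ℝ) = (k : ℝ) - 1 - m := by
      rw [Nat.sub_sub, Nat.cast_sub (by omega)]
      push_cast
      ring
    have h2 : ((m + 1 : ℕ) : ℝ) ≤ k := by exact_mod_cast hm.le
    push_cast at h2 ⊢
    rw [abs_of_nonpos (by linarith), h]
    ring

lemma PF_eval_eq {n k : ℕ} (hk : 2 * n < k) : |(((PF n).eval (-(k : ℚ)) : ℚ) : ℝ)| =
    (((7 * n).factorial : ℕ) : ℝ) ^ 2 * (((k - 1).choose (2 * n) : ℕ) : ℝ) ^ 3 := by
  unfold PF
  rw [Polynomial.eval_mul, Polynomial.eval_C, Polynomial.eval_prod]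
  push_cast
  rw [abs_mul, Finset.abs_prod]
  have h1 : ∏ j ∈ Finset.Icc 1 (2 * n), |((((X + C (j : ℚ)) ^ 3 : ℚ[X]).eval (-(k : ℚ)) : ℚ) : ℝ)| =
      (((2 * n).factorial : ℕ) : ℝ) ^ 3 * (((k - 1).choose (2 * n) : ℕ) : ℝ) ^ 3 := by
    rw [← mul_pow]
    have h2 : (((2 * n).factorial : ℕ) : ℝ) * (((k - 1).choose (2 * n) : ℕ) : ℝ) =
        ∏ j ∈ Finset.Icc 1 (2 * n), |-(k : ℝ) + j| := by
      rw [prod_desc k (2 * n) hk, Nat.descFactorial_eq_factorial_mul_choose]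
      push_cast
      rfl
    rw [h2, ← Finset.prod_pow]
    apply Finset.prod_congr rfl
    intro j _
    rw [Polynomial.eval_pow, Polynomial.eval_add, Polynomial.eval_X, Polynomial.eval_C]
    push_cast
    rw [abs_pow]
  rw [h1]
  have h6 : |((cF n : ℚ) : ℝ)| = (((7 * n).factorial : ℕ) : ℝ) ^ 2 / (((2 * n).factorial : ℕ) : ℝ) ^ 3 := by
    unfold cF
    push_cast
    rw [abs_of_nonneg (by positivity)]
  rw [h6]
  have hf : (0 : ℝ) < (((2 * n).factorial : ℕ) : ℝ) := by positivity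
  field_simp

lemma prod_poles_eq {n k : ℕ} (hk : k ∈ sF n) :
    ∏ m ∈ (sF n).erase k, |-(k : ℝ) + m| =
      ((k - (3 * n + 1)).factorial : ℝ) * ((7 * n - 1 - (k - (3 * n + 1))).factorial : ℝ) := by
  rw [Finset.mem_Icc] at hk
  have hn : 1 ≤ n := by omega
  set j := k - (3 * n + 1) with hj
  have hjk : k = j + (3 * n + 1) := by omega
  have hjD : j ≤ 7 * n - 1 := by omega
  rw [← prod_dist (7 * n - 1) j hjD]
  have hs : (sF n).erase k = ((Finset.range (7 * n - 1 + 1)).erase j).image (fun l => l + (3 * n + 1)) := by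
    ext m
    simp only [Finset.mem_erase, Finset.mem_image, Finset.mem_range, Finset.mem_Icc]
    constructor
    · rintro ⟨h2, h3, h4⟩
      exact ⟨m - (3 * n + 1), ⟨by omega, by omega⟩, by omega⟩
    · rintro ⟨l, ⟨h2, h3⟩, rfl⟩
      exact ⟨by omega, by omega, by omega⟩
  rw [hs, Finset.prod_image (fun a _ b _ h => by omega)]
  apply Finset.prod_congr rfl
  intro l _
  rw [hjk, abs_sub_comm]
  congr 1
  push_cast
  ring

lemma b_le2 {n k : ℕ} (hk : k ∈ sF n) (Q : ℚ[X]) :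
    |((pa (sF n) mF (PF n * Q) k 2 : ℚ) : ℝ)| ≤ (7 * (n : ℝ)) ^ 2 *
      Real.exp (2 * ((k - 3 * n) * Real.log (7 / 5) + (10 * n - k) * Real.log (7 / 2)) +
        3 * (2 * n * Real.log 4 + (k - 2 * n) * Real.log (4 / 3))) * |((Q.eval (-(k : ℚ)) : ℚ) : ℝ)| := by
  have hk' := hk
  rw [Finset.mem_Icc] at hk'
  have hn : 1 ≤ n := by omega
  have hn1 : (1 : ℝ) ≤ n := by exact_mod_cast hn
  rw [pa_two, Polynomial.eval_mul]
  push_cast
  rw [abs_mul, abs_mul, Finset.abs_prod]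
  have h2 : ∏ m ∈ (sF n).erase k, |((-(k : ℝ) + m)⁻¹) ^ 2| =
      ((∏ m ∈ (sF n).erase k, |-(k : ℝ) + m|)⁻¹) ^ 2 := by
    rw [← Finset.prod_inv_distrib, ← Finset.prod_pow]
    apply Finset.prod_congr rfl
    intro m _
    rw [abs_pow, abs_inv]
  rw [h2, prod_poles_eq hk, PF_eval_eq (by omega)]
  set j := k - (3 * n + 1) with hj
  have hjD : j ≤ 7 * n - 1 := by omega
  -- the two binomial coefficients
  have c1 := choose_le_exp (k - 1) (2 * n) (by omega) 4 (4 / 3) (by norm_num) (by norm_num) (by norm_num)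
  have c2 := choose_le_exp (7 * n - 1) j hjD (7 / 5) (7 / 2) (by norm_num) (by norm_num) (by norm_num)
  have hch : (((7 * n - 1).choose j : ℕ) : ℝ) * ((j.factorial : ℝ) * ((7 * n - 1 - j).factorial : ℝ)) =
      (((7 * n - 1).factorial : ℕ) : ℝ) := by
    have := Nat.choose_mul_factorial_mul_factorial hjD
    rw [← mul_assoc]
    exact_mod_cast this
  have h7 : (((7 * n).factorial : ℕ) : ℝ) = 7 * n * (((7 * n - 1).factorial : ℕ) : ℝ) := by
    have e : 7 * n = (7 * n - 1) + 1 := by omega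
    have := Nat.factorial_succ (7 * n - 1)
    rw [← e] at this
    rw [this]
    push_cast
    ring
  have hjf : (0 : ℝ) < (j.factorial : ℝ) * ((7 * n - 1 - j).factorial : ℝ) := by positivity
  have e1 : (((7 * n).factorial : ℕ) : ℝ) ^ 2 * (((k - 1).choose (2 * n) : ℕ) : ℝ) ^ 3 *
      |((Q.eval (-(k : ℚ)) : ℚ) : ℝ)| * (((j.factorial : ℝ) * ((7 * n - 1 - j).factorial : ℝ))⁻¹) ^ 2 =
      (7 * (n : ℝ)) ^ 2 * ((((7 * n - 1).choose j : ℕ) : ℝ) ^ 2 * (((k - 1).choose (2 * n) : ℕ) : ℝ) ^ 3) *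
      |((Q.eval (-(k : ℚ)) : ℚ) : ℝ)| := by
    rw [h7, ← hch]
    field_simp
  rw [e1]
  apply mul_le_mul_of_nonneg_right _ (abs_nonneg _)
  apply mul_le_mul_of_nonneg_left _ (by positivity)
  have c1' := pow_le_pow_left₀ (Nat.cast_nonneg _) c1 3
  have c2' := pow_le_pow_left₀ (Nat.cast_nonneg _) c2 2
  refine (mul_le_mul c2' c1' (by positivity) (by positivity)).trans ?_
  rw [← Real.exp_nat_mul, ← Real.exp_nat_mul, ← Real.exp_add]
  apply Real.exp_le_exp.2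
  have hjr : (j : ℝ) = k - 3 * n - 1 := by
    rw [hj, Nat.cast_sub (by omega)]
    push_cast
    ring
  have hjr2 : ((7 * n - 1 - j : ℕ) : ℝ) = 10 * n - k := by
    rw [show 7 * n - 1 - j = 10 * n - k by omega, Nat.cast_sub (by omega)]
    push_cast
    ring
  have hkr : ((k - 1 - 2 * n : ℕ) : ℝ) = k - 1 - 2 * n := by
    rw [show k - 1 - 2 * n = k - (1 + 2 * n) by omega, Nat.cast_sub (by omega)]
    push_cast
    ring
  rw [hjr, hjr2, hkr]
  have l1 : 0 ≤ Real.log (7 / 5) := Real.log_nonneg (by norm_num)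
  have l2 : 0 ≤ Real.log (4 / 3) := Real.log_nonneg (by norm_num)
  push_cast
  linarith

/-- **the pole functional**, with polynomial factor -/
theorem rho_poly {n : ℕ} (hn : 1 ≤ n) (Q : ℚ[X]) (hQ : Q.natDegree ≤ 8 * n - 2) (B : ℝ)
    (hB : ∀ y : ℝ, NG n y * ‖aeval (zl y) Q‖ * Real.exp (-(2 * Real.pi * |y|)) ≤ B * (1 + y ^ 2)⁻¹) :
    |((rho n (PF n * Q) : ℚ) : ℝ)| ≤
      7 * n * ((7 * (n : ℝ)) ^ 2 * (8 * n * (3 * (4 * (n : ℝ)) ^ 3))) * Real.exp (5562 / 100 * n + 3) * B := by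
  have hn1 : (1 : ℝ) ≤ n := by exact_mod_cast hn
  have hn0 : (0 : ℝ) < n := by linarith
  have hB0 : 0 ≤ B := by
    have h := hB 0
    have h2 : 0 ≤ NG n 0 * ‖aeval (zl 0) Q‖ * Real.exp (-(2 * Real.pi * |0|)) :=
      mul_nonneg (mul_nonneg (NG_pos hn 0).le (norm_nonneg _)) (Real.exp_pos _).le
    have h3 : B * (1 + (0 : ℝ) ^ 2)⁻¹ = B := by norm_num
    rw [h3] at h
    exact h2.trans h
  have hk : ∀ k ∈ sF n, |((pa (sF n) mF (PF n * Q) k 2 : ℚ) : ℝ)| ≤
      ((7 * (n : ℝ)) ^ 2 * (8 * n * (3 * (4 * (n : ℝ)) ^ 3))) * Real.exp (5562 / 100 * n + 3) * B := by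
    intro k hk
    have hk' := hk
    rw [Finset.mem_Icc] at hk'
    have hk0 : (0 : ℝ) < k := by exact_mod_cast (by omega : 0 < k)
    have hk3 : 3 * (n : ℝ) ≤ k := by exact_mod_cast (by omega : 3 * n ≤ k)
    have hk10 : (k : ℝ) ≤ 10 * n := by exact_mod_cast hk'.2
    have h1 := b_le2 hk Q
    have h2 := lagr2 hn Q hQ k (by omega) _ (fun j hj => node_T hn Q B hB j hj)
    have hD : ((8 * n - 2 : ℕ) : ℝ) = 8 * n - 2 := by
      rw [Nat.cast_sub (by omega)]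
      push_cast
      ring
    have hkp : (k : ℝ) ^ (8 * n - 2) = Real.exp ((8 * n - 2) * Real.log k) := by
      rw [← hD, Real.exp_nat_mul, Real.exp_log hk0]
    rw [hkp] at h2
    refine h1.trans ((mul_le_mul_of_nonneg_left h2 (by positivity)).trans ?_)
    set E1 := 2 * (((k : ℝ) - 3 * n) * Real.log (7 / 5) + (10 * n - k) * Real.log (7 / 2)) +
        3 * (2 * n * Real.log 4 + (k - 2 * n) * Real.log (4 / 3)) with hE1
    have e : (7 * (n : ℝ)) ^ 2 * Real.exp E1 * (8 * n *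
        (B * (3 * (4 * (n : ℝ)) ^ 3 * Real.exp (1683 / 100 * n + 3 - (8 * n - 2) * Real.log n)) *
          (Real.exp ((8 * n - 2) * Real.log k) * Real.exp (16 * (n : ℝ) ^ 3 / (3 * (k : ℝ) ^ 2))))) =
        ((7 * (n : ℝ)) ^ 2 * (8 * n * (3 * (4 * (n : ℝ)) ^ 3))) *
        Real.exp (E1 + (1683 / 100 * n + 3 - (8 * n - 2) * Real.log n) + (8 * n - 2) * Real.log k +
          16 * (n : ℝ) ^ 3 / (3 * (k : ℝ) ^ 2)) * B := by
      have hx4 : ∀ a b c d : ℝ, Real.exp (a + b + c + d) = Real.exp a * Real.exp b * Real.exp c * Real.exp d :=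
        fun a b c d => by rw [Real.exp_add, Real.exp_add, Real.exp_add]
      rw [hx4]
      clear_value E1
      ring
    rw [e]
    apply mul_le_mul_of_nonneg_right _ hB0
    apply mul_le_mul_of_nonneg_left _ (by positivity)
    apply Real.exp_le_exp.2
    have hx := ineq_one (k / n) (by rw [le_div_iff₀ hn0]; exact hk3) (by rw [div_le_iff₀ hn0]; exact hk10)
    have h3 := mul_le_mul_of_nonneg_right hx hn0.le
    have e3 : (2 * (((k : ℝ) / n - 3) * Real.log (7 / 5) + (10 - k / n) * Real.log (7 / 2)) +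
      3 * (2 * Real.log 4 + (k / n - 2) * Real.log (4 / 3)) + 8 * Real.log (k / n) + 16 / (3 * (k / n) ^ 2)) * n =
        E1 + 8 * n * Real.log (k / n) + 16 * (n : ℝ) ^ 3 / (3 * (k : ℝ) ^ 2) := by
      rw [hE1]
      field_simp
    rw [e3, Real.log_div hk0.ne' hn0.ne'] at h3
    have hlog : Real.log n ≤ Real.log k := Real.log_le_log hn0 (by linarith)
    linarith
  unfold rho
  push_cast
  refine (Finset.abs_sum_le_sum_abs _ _).trans ?_
  have hcard : (sF n).card = 7 * n := by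
    rw [Nat.card_Icc]; omega
  refine (Finset.sum_le_sum hk).trans (le_of_eq ?_)
  rw [Finset.sum_const, hcard, nsmul_eq_mul]
  push_cast
  ring

lemma poly_ev : ∀ᶠ n : ℕ in atTop,
    7 * n * ((7 * (n : ℝ)) ^ 2 * (8 * n * (3 * (4 * (n : ℝ)) ^ 3))) * Real.exp 3 ≤ Real.exp (3 / 100 * n) := by
  have h1 : Tendsto (fun x : ℝ => Real.exp (3 / 100 * x) / x ^ 7) atTop atTop := by
    have h := (Real.tendsto_exp_div_pow_atTop 7).comp
      (tendsto_id.const_mul_atTop (show (0 : ℝ) < 3 / 100 by norm_num))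
    have h2 := h.const_mul_atTop (show (0 : ℝ) < (3 / 100) ^ 7 by norm_num)
    refine h2.congr fun x => ?_
    simp only [Function.comp, id]
    rw [mul_pow]
    field_simp
  have h2 := (h1.comp tendsto_natCast_atTop_atTop).eventually_ge_atTop
    (7 * (7 ^ 2 * (8 * (3 * 4 ^ 3))) * Real.exp 3)
  filter_upwards [h2, eventually_ge_atTop 1] with n hn hn1
  have hn0 : (0 : ℝ) < (n : ℝ) ^ 7 := by
    have : (0 : ℝ) < n := by exact_mod_cast hn1
    positivity
  simp only [Function.comp] at hn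
  rw [le_div_iff₀ hn0] at hn
  refine le_trans (le_of_eq ?_) hn
  ring

/-- **the pole functional**, constant `5565 / 100` -/
theorem rho_le2 : ∃ n0 : ℕ, ∀ n : ℕ, n0 ≤ n → 1 ≤ n → ∀ Q : ℚ[X], Q.natDegree ≤ 8 * n - 2 → ∀ B : ℝ,
    (∀ y : ℝ, NG n y * ‖aeval (zl y) Q‖ * Real.exp (-(2 * Real.pi * |y|)) ≤ B * (1 + y ^ 2)⁻¹) →
    |((rho n (PF n * Q) : ℚ) : ℝ)| ≤ Real.exp (5565 / 100 * n) * B := by
  obtain ⟨n0, h0⟩ := eventually_atTop.1 poly_ev
  refine ⟨n0, fun n hn hn1 Q hQ B hB => ?_⟩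
  have hB0 : 0 ≤ B := by
    have h := hB 0
    have h2 : 0 ≤ NG n 0 * ‖aeval (zl 0) Q‖ * Real.exp (-(2 * Real.pi * |0|)) :=
      mul_nonneg (mul_nonneg (NG_pos hn1 0).le (norm_nonneg _)) (Real.exp_pos _).le
    have h3 : B * (1 + (0 : ℝ) ^ 2)⁻¹ = B := by norm_num
    rw [h3] at h
    exact h2.trans h
  refine (rho_poly hn1 Q hQ B hB).trans ?_
  apply mul_le_mul_of_nonneg_right _ hB0
  have e : Real.exp (5565 / 100 * n) = Real.exp (3 / 100 * n) * Real.exp (5562 / 100 * n) := by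
    rw [← Real.exp_add]
    congr 1
    ring
  rw [e, Real.exp_add]
  have h1 := mul_le_mul_of_nonneg_right (h0 n hn) (Real.exp_pos (5562 / 100 * (n : ℝ))).le
  refine le_trans (le_of_eq ?_) h1
  ring

end

end Pool.Agent.TH120.ZE
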