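import Pool.Agent.TH120.ZE.Final2
import Pool.Agent.H312R3.M34.Cor
import Pool.Agent.W170.Z3.Z

/-! Consequences of the measure for `1, ζ(3), ζ(4)` with exponent `138`. -/

open Pool.Agent.H337R2

namespace Pool.Agent.TH120.ZE

noncomputable section

open Pool.Agent.ZF Pool.Agent.ZF.Mea

/-- explicit exponent, `π ^ 4`, coefficient of `π ^ 4` nonzero -/
theorem pi_d2 : ∃ c : ℝ, 0 < c ∧ ∀ a b d : ℤ, d ≠ 0 → ∀ H : ℝ, |(b : ℝ)| ≤ H → |(d : ℝ)| ≤ H →
    c / H ^ 138 ≤ |(a : ℝ) + b * zr 3 + d * Real.pi ^ 4| := by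
  obtain ⟨c, hc, hm⟩ := measure_d2
  refine ⟨c / 90 ^ 138, by positivity, ?_⟩
  intro a b d hd H hb hdH
  have hd1 : (1 : ℝ) ≤ |(d : ℝ)| := by
    have : (1 : ℤ) ≤ |d| := Int.one_le_abs hd
    exact_mod_cast this
  have hH1 : 1 ≤ H := hd1.trans hdH
  have hH0 : 0 < H := by linarith
  have h := hm a b (90 * d) (90 * H) (by linarith) (by omega) (by linarith) (by
    push_cast
    rw [abs_mul, abs_of_pos (by norm_num : (0 : ℝ) < 90)]
    linarith)
  rw [zr4_eq] at h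
  have e1 : (a : ℝ) + b * zr 3 + ((90 * d : ℤ) : ℝ) * (Real.pi ^ 4 / 90) = a + b * zr 3 + d * Real.pi ^ 4 := by
    push_cast
    ring
  rw [e1] at h
  refine le_trans (le_of_eq ?_) h
  rw [Real.rpow_neg (by positivity), show (138 : ℝ) = ((138 : ℕ) : ℝ) by norm_num, Real.rpow_natCast, mul_pow,
    div_div, div_eq_mul_inv]

/-- linear forms in `1, ζ(3)` -/
theorem z3_lin : ∃ c : ℝ, 0 < c ∧ ∀ a b : ℤ, b ≠ 0 → ∀ H : ℝ, |(b : ℝ)| ≤ H →
    c / H ^ 138 ≤ |(a : ℝ) + b * zr 3| := by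
  obtain ⟨c, hc, h⟩ := Pool.Agent.W170.Z3.Z_main
  refine ⟨c, hc, fun a b hb H hbH => ?_⟩
  have hb1 : (1 : ℝ) ≤ |(b : ℝ)| := by
    have : (1 : ℤ) ≤ |b| := Int.one_le_abs hb
    exact_mod_cast this
  have hH1 : 1 ≤ H := hb1.trans hbH
  have hb' : (b : ℝ) ≠ 0 := by exact_mod_cast hb
  have hq : 0 < b.natAbs := Int.natAbs_pos.2 hb
  have hqr : ((b.natAbs : ℕ) : ℝ) = |(b : ℝ)| := by
    rw [Nat.cast_natAbs]; push_cast; rfl
  have h1 := h (-a * b.sign) b.natAbs hq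
  rw [hqr] at h1
  have hs : ((b.sign : ℤ) : ℝ) * |(b : ℝ)| = b := by
    have := Int.sign_mul_abs b
    exact_mod_cast this
  have hs2 : ((b.sign : ℤ) : ℝ) * b = |(b : ℝ)| := by
    have := Int.sign_mul_self_eq_abs b
    exact_mod_cast this
  have e1 : zr 3 - ((-a * b.sign : ℤ) : ℝ) / |(b : ℝ)| = (a + b * zr 3) / b := by
    have hab : |(b : ℝ)| ≠ 0 := by positivity
    push_cast
    field_simp
    rw [← hs2]
    ring
  rw [e1, abs_div, le_div_iff₀ (by positivity)] at h1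
  refine le_trans ?_ h1
  have hbp : (0 : ℝ) < |(b : ℝ)| := by linarith
  have h2 : c / H ^ 138 ≤ c / |(b : ℝ)| ^ ((542 : ℝ) / 100) := by
    apply div_le_div_of_nonneg_left hc.le (Real.rpow_pos_of_pos hbp _)
    calc |(b : ℝ)| ^ ((542 : ℝ) / 100) ≤ |(b : ℝ)| ^ (138 : ℝ) :=
          Real.rpow_le_rpow_of_exponent_le hb1 (by norm_num)
      _ = |(b : ℝ)| ^ 138 := by
          rw [show (138 : ℝ) = ((138 : ℕ) : ℝ) by norm_num, Real.rpow_natCast]
      _ ≤ H ^ 138 := pow_le_pow_left₀ hbp.le hbH _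
  refine h2.trans ?_
  exact le_mul_of_one_le_right (div_nonneg hc.le (Real.rpow_pos_of_pos hbp _).le) hb1

/-- all coefficients, explicit exponent -/
theorem pi_all2 : ∃ c : ℝ, 0 < c ∧ ∀ a b d : ℤ, ¬ (a = 0 ∧ b = 0 ∧ d = 0) → ∀ H : ℝ, 1 ≤ H →
    |(b : ℝ)| ≤ H → |(d : ℝ)| ≤ H →
    c / H ^ 138 ≤ |(a : ℝ) + b * zr 3 + d * Real.pi ^ 4| := by
  obtain ⟨c1, hc1, h1⟩ := pi_d2
  obtain ⟨c2, hc2, h2⟩ := z3_lin
  refine ⟨min (min c1 c2) 1, by positivity, ?_⟩
  intro a b d h0 H hH hb hd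
  have hH0 : 0 < H := by linarith
  have hp : (1 : ℝ) ≤ H ^ 138 := one_le_pow₀ hH
  by_cases hd0 : d = 0
  · rw [hd0]
    push_cast
    rw [zero_mul, add_zero]
    by_cases hb0 : b = 0
    · have ha0 : a ≠ 0 := fun h => h0 ⟨h, hb0, hd0⟩
      have ha1 : (1 : ℝ) ≤ |(a : ℝ)| := by
        have : (1 : ℤ) ≤ |a| := Int.one_le_abs ha0
        exact_mod_cast this
      rw [hb0]
      push_cast
      rw [zero_mul, add_zero]
      refine le_trans ?_ ha1
      rw [div_le_one (by positivity)]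
      exact (min_le_right _ _).trans hp
    · refine le_trans ?_ (h2 a b hb0 H hb)
      exact div_le_div_of_nonneg_right ((min_le_left _ _).trans (min_le_right _ _)) (by positivity)
  · refine le_trans ?_ (h1 a b d hd0 H hb hd)
    exact div_le_div_of_nonneg_right ((min_le_left _ _).trans (min_le_left _ _)) (by positivity)

/-- irrationality exponent of `ζ(3) + s π ^ 4` at most `139` -/
theorem shift_exp2 (s : ℚ) (hs : s ≠ 0) : ∃ c : ℝ, 0 < c ∧ ∀ p q : ℤ, 0 < q →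
    c / (q : ℝ) ^ 139 ≤ |zr 3 + s * Real.pi ^ 4 - p / q| := by
  obtain ⟨c, hc, h⟩ := pi_d2
  set K : ℝ := max (s.den : ℝ) |(s.num : ℝ)| with hK
  have hden : (0 : ℝ) < s.den := by exact_mod_cast s.pos
  have hK0 : 0 < K := lt_max_of_lt_left hden
  refine ⟨c / K ^ 138 / s.den, by positivity, ?_⟩
  intro p q hq
  have hq0 : (0 : ℝ) < q := by exact_mod_cast hq
  have hnum : s.num ≠ 0 := Rat.num_ne_zero.2 hs
  have h1 := h (-(s.den * p)) (s.den * q) (s.num * q) (mul_ne_zero hnum hq.ne') (K * q)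
    (by push_cast; rw [abs_mul, abs_of_pos hden, abs_of_pos hq0]
        exact mul_le_mul_of_nonneg_right (le_max_left _ _) hq0.le)
    (by push_cast; rw [abs_mul, abs_of_pos hq0]
        exact mul_le_mul_of_nonneg_right (le_max_right _ _) hq0.le)
  have hsr : (s : ℝ) = s.num / s.den := by exact_mod_cast (Rat.num_div_den s).symm
  have e1 : zr 3 + s * Real.pi ^ 4 - p / q =
      (((-(s.den * p) : ℤ) : ℝ) + ((s.den * q : ℤ) : ℝ) * zr 3 + ((s.num * q : ℤ) : ℝ) * Real.pi ^ 4) / (s.den * q) := by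
    rw [hsr]
    push_cast
    field_simp
    ring
  rw [e1, abs_div, abs_of_pos (mul_pos hden hq0)]
  rw [le_div_iff₀ (mul_pos hden hq0)]
  refine le_trans (le_of_eq ?_) h1
  rw [mul_pow]
  field_simp

lemma zr3_pos : 0 < zr 3 := by
  have h : Summable (fun n : ℕ => 1 / ((n : ℝ) + 1) ^ 3) := by
    have := (summable_nat_add_iff 1).2 (Real.summable_one_div_nat_pow.2 (by norm_num : 1 < 3))
    exact_mod_cast this
  have h1 : (0 : ℝ) < ∑' n : ℕ, 1 / ((n : ℝ) + 1) ^ 3 :=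
    h.tsum_pos (fun n => by positivity) 0 (by norm_num)
  exact h1

/-- irrationality exponent of `ζ(3) / π ^ 4` at most `139` -/
theorem quot_exp2 : ∃ c : ℝ, 0 < c ∧ ∀ p q : ℤ, 0 < q →
    c / (q : ℝ) ^ 139 ≤ |zr 3 / Real.pi ^ 4 - p / q| := by
  obtain ⟨c, hc, h⟩ := pi_d2
  have hpi : (0 : ℝ) < Real.pi ^ 4 := by positivity
  have hz3 : 0 < |zr 3| := abs_pos.2 zr3_pos.ne'
  set x : ℝ := zr 3 / Real.pi ^ 4 with hx
  have hx0 : 0 < |x| := by
    rw [hx, abs_div, abs_of_pos hpi]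
    exact div_pos hz3 hpi
  set X : ℝ := |x| + 1 with hX
  have hX0 : 0 < X := by linarith
  have hXX : 1 ≤ X := by linarith
  refine ⟨min (min |x| 1) (c / (X ^ 138 * Real.pi ^ 4)), by positivity, ?_⟩
  intro p q hq
  have hq0 : (0 : ℝ) < q := by exact_mod_cast hq
  have hq1 : (1 : ℝ) ≤ q := by exact_mod_cast (by omega : (1 : ℤ) ≤ q)
  have hqp : (1 : ℝ) ≤ (q : ℝ) ^ 139 := one_le_pow₀ hq1
  by_cases hp0 : p = 0
  · rw [hp0]
    push_cast
    rw [zero_div, sub_zero]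
    refine (div_le_self (by positivity) hqp).trans ?_
    exact (min_le_left _ _).trans (min_le_left _ _)
  · by_cases hpq : |(p : ℝ)| ≤ X * q
    · have h1 := h 0 q (-p) (neg_ne_zero.2 hp0) (X * q)
        (by rw [abs_of_pos hq0]; nlinarith)
        (by push_cast; rw [abs_neg]; exact hpq)
      have e1 : x - p / q = (((0 : ℤ) : ℝ) + (q : ℝ) * zr 3 + ((-p : ℤ) : ℝ) * Real.pi ^ 4) / (q * Real.pi ^ 4) := by
        rw [hx]
        push_cast
        field_simp
        ring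
      have e2 : |x - p / q| = |((0 : ℤ) : ℝ) + (q : ℝ) * zr 3 + ((-p : ℤ) : ℝ) * Real.pi ^ 4| / (q * Real.pi ^ 4) := by
        rw [e1, abs_div, abs_of_pos (mul_pos hq0 hpi)]
      rw [e2, le_div_iff₀ (mul_pos hq0 hpi)]
      refine le_trans ?_ h1
      calc min (min |x| 1) (c / (X ^ 138 * Real.pi ^ 4)) / (q : ℝ) ^ 139 * (q * Real.pi ^ 4)
          ≤ (c / (X ^ 138 * Real.pi ^ 4)) / (q : ℝ) ^ 139 * (q * Real.pi ^ 4) := by
            apply mul_le_mul_of_nonneg_right _ (by positivity)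
            exact div_le_div_of_nonneg_right (min_le_right _ _) (by positivity)
        _ = c / (X * q) ^ 138 := by
            rw [mul_pow]
            field_simp
    · push Not at hpq
      refine (div_le_self (by positivity) hqp).trans ?_
      refine ((min_le_left _ _).trans (min_le_right _ _)).trans ?_
      have h5 : X < |(p : ℝ) / q| := by
        rw [abs_div, abs_of_pos hq0, lt_div_iff₀ hq0]
        exact hpq
      have h6 : |(p : ℝ) / q| - |x| ≤ |x - p / q| := by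
        rw [abs_sub_comm]
        exact abs_sub_abs_le_abs_sub _ _
      linarith

end

end Pool.Agent.TH120.ZE
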