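import Pool.Agent.TH120.ZE.Arch2
import Pool.Agent.TH120.ZE.Sel
import Pool.Agent.H312R3.M34.PM
import Pool.Agent.H312R3.M34.H6
import Pool.Agent.H312R3.M34.Final

/-! A measure of linear independence for `1, ζ(3), ζ(4)`, exponent `138`. -/

open Polynomial Pool.Agent.H337R2 Filter Topology

namespace Pool.Agent.TH120.ZE

noncomputable section

open Pool.Agent.ZF Pool.Agent.ZF.Mea

/-- **measure, `d ≠ 0`** -/
theorem measure_d2 : ∃ c : ℝ, 0 < c ∧ ∀ a b d : ℤ, ∀ H : ℝ, 1 ≤ H → d ≠ 0 →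
    |(b : ℝ)| ≤ H → |(d : ℝ)| ≤ H → c * H ^ (-138 : ℝ) ≤ |(a : ℝ) + b * zr 3 + d * zr 4| := by
  obtain ⟨p0, hp0⟩ := H6_unif
  obtain ⟨C, hC1, hA⟩ := A_unif2 (1 / 1000) (by norm_num)
  obtain ⟨NA, hNA⟩ := eventually_atTop.1 hA
  obtain ⟨NP, hNP⟩ := eventually_atTop.1 (P_unif (1 / 1000) (by norm_num))
  obtain ⟨M0, hM0⟩ := prime_sel (14775 / 10000) (2478 / 1000) (by norm_num) (by norm_num)
  set N1 : ℕ := NP + p0 + M0 + NA + ⌈Real.log (2 * C)⌉₊ + 1 with hN1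
  refine ⟨Real.exp (-(138 * (N1 + 1))), Real.exp_pos _, ?_⟩
  intro a b d H hH hd hb hdH
  by_contra hlt
  push Not at hlt
  have hH0 : 0 < H := by linarith
  set L : ℝ := Real.log H with hL
  have hL0 : 0 ≤ L := Real.log_nonneg hH
  set M : ℕ := N1 + ⌈L⌉₊ with hM
  have hc1 : L ≤ (⌈L⌉₊ : ℝ) := Nat.le_ceil _
  have hc2 : (⌈L⌉₊ : ℝ) < L + 1 := Nat.ceil_lt_add_one hL0
  have hMr : (M : ℝ) = N1 + (⌈L⌉₊ : ℝ) := by rw [hM]; push_cast; ring
  have hN1r : (0 : ℝ) ≤ N1 := Nat.cast_nonneg _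
  have hC1r : (1 : ℝ) ≤ C := by exact_mod_cast hC1
  have hlC : Real.log (2 * C) ≤ N1 := by
    have h1 : Real.log (2 * C) ≤ (⌈Real.log (2 * C)⌉₊ : ℝ) := Nat.le_ceil _
    have h2 : ((⌈Real.log (2 * C)⌉₊ : ℕ) : ℝ) ≤ (N1 : ℝ) := Nat.cast_le.2 (by omega)
    linarith
  set q : ℕ := d.natAbs with hq
  have hq0 : q ≠ 0 := Int.natAbs_ne_zero.2 hd
  have hqr : (q : ℝ) = |(d : ℝ)| := by
    rw [hq, Nat.cast_natAbs]; push_cast; rfl
  have hqpos : (0 : ℝ) < q := by exact_mod_cast Nat.pos_of_ne_zero hq0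
  have hq1 : (1 : ℝ) ≤ q := by exact_mod_cast Nat.one_le_iff_ne_zero.2 hq0
  have hqH : (q : ℝ) ≤ H := by rw [hqr]; exact hdH
  have hlq : Real.log q ≤ L := Real.log_le_log hqpos hqH
  obtain ⟨n, hnp, hn1, hn2, hnd⟩ := hM0 M (by omega) q hq0 (by linarith)
  have hF : Fact n.Prime := ⟨hnp⟩
  have hM1 : (1 : ℝ) ≤ M := by
    have : 1 ≤ M := by omega
    exact_mod_cast this
  have hnM : M < n := by
    have h : (M : ℝ) < n := by linarith
    exact_mod_cast h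
  have h4 : 1 ≤ n := hnp.one_lt.le
  have hn0 : (0 : ℝ) < n := by exact_mod_cast hnp.pos
  set α : ℚ := -(a : ℚ) / d with hα'
  set β : ℚ := -(b : ℚ) / d with hβ'
  have hα : QI q α := QI_div a d hd
  have hβ : QI q β := QI_div b d hd
  have hpd : padicNorm n (d : ℚ) = 1 := by
    rw [padicNorm.int_eq_one_iff]
    intro hdv
    exact hnd (Int.natCast_dvd.1 hdv)
  have hpα : padicNorm n α ≤ 1 := by
    rw [hα', padicNorm.div, hpd, div_one, padicNorm.neg]
    exact padicNorm.of_int a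
  have hpβ : padicNorm n β ≤ 1 := by
    rw [hβ', padicNorm.div, hpd, div_one, padicNorm.neg]
    exact padicNorm.of_int b
  have hne := hp0 n (by omega) hnp α β hpα hpβ
  have hd' : (d : ℝ) ≠ 0 := by exact_mod_cast hd
  -- the height used for `β`
  set B : ℕ := ⌊|(β : ℝ)|⌋₊ + 1 with hB
  have hB1 : 1 ≤ B := by omega
  have hβB : |(β : ℝ)| ≤ B := by
    rw [hB]; push_cast
    exact (Nat.lt_floor_add_one _).le
  have hBβ : (B : ℝ) ≤ |(β : ℝ)| + 1 := by
    rw [hB]; push_cast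
    have := Nat.floor_le (abs_nonneg (β : ℝ))
    linarith
  have hqβ : (q : ℝ) * |(β : ℝ)| = |(b : ℝ)| := by
    rw [hqr, hβ', ← abs_mul]
    push_cast
    rw [mul_div_cancel₀ _ hd', abs_neg]
  have hqB : (q : ℝ) * B ≤ 2 * H := by
    calc (q : ℝ) * B ≤ q * (|(β : ℝ)| + 1) := mul_le_mul_of_nonneg_left hBβ hqpos.le
      _ = |(b : ℝ)| + q := by rw [mul_add, hqβ, mul_one]
      _ ≤ 2 * H := by linarith
  have hBr : (1 : ℝ) ≤ B := by exact_mod_cast hB1
  have hlogs : Real.log q + Real.log ((C : ℝ) * B) ≤ L + Real.log (2 * C) := by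
    rw [← Real.log_mul hqpos.ne' (by positivity), hL, ← Real.log_mul hH0.ne' (by positivity)]
    apply Real.log_le_log (by positivity)
    nlinarith
  have het : zr 4 - α - β * zr 3 = ((a : ℝ) + b * zr 3 + d * zr 4) / d := by
    rw [hα', hβ']
    push_cast
    field_simp
    ring
  have heta : |zr 4 - α - β * zr 3| ≤ Real.exp (-(5565 / 100 * n)) := by
    rw [het, abs_div]
    have e1 : |(a : ℝ) + b * zr 3 + d * zr 4| / |(d : ℝ)| ≤ |(a : ℝ) + b * zr 3 + d * zr 4| := by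
      apply div_le_self (abs_nonneg _)
      rw [← hqr]; exact hq1
    refine e1.trans (hlt.le.trans ?_)
    rw [Real.rpow_def_of_pos hH0, ← Real.exp_add]
    apply Real.exp_le_exp.2
    rw [← hL]
    linarith
  have h1' := hNP n (by omega) q α β hα hβ hne
  have h2' := hNA n (by omega) α β B hB1 hβB heta hne
  set z : ℚ := (q : ℚ) ^ (4 * n) * DET n α β (4 * n) with hz
  have hqq : (q : ℚ) ≠ 0 := by exact_mod_cast hq0
  have hz0 : z ≠ 0 := mul_ne_zero (pow_ne_zero _ hqq) hne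
  have hSp : ∀ p ∈ (Finset.range (10 * n + 1)).filter Nat.Prime, p.Prime := fun p hp =>
    (Finset.mem_filter.1 hp).2
  have hprod := Pool.Agent.H336R2.HD.A5_prod_formula z hz0 ((Finset.range (10 * n + 1)).filter Nat.Prime) hSp
    (fun p => ((padicNorm p z : ℚ) : ℝ)) (fun p _ => le_rfl) (fun p hp hpS => by
      apply P_large q α β hα hβ n h4 p hp
      by_contra hlt
      apply hpS
      rw [Finset.mem_filter, Finset.mem_range]
      exact ⟨by omega, hp⟩)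
  have hpos : ∀ p ∈ (Finset.range (10 * n + 1)).filter Nat.Prime, ((padicNorm p z : ℚ) : ℝ) ≠ 0 :=
    fun p hp => (Pool.Agent.LZ.PM_z_pos p (hSp p hp) z hz0).ne'
  have hDpos : 0 < |((DET n α β (4 * n) : ℚ) : ℝ)| := abs_pos.2 (by exact_mod_cast hne)
  have habs : |(z : ℝ)| = (q : ℝ) ^ (4 * n) * |((DET n α β (4 * n) : ℚ) : ℝ)| := by
    rw [hz]
    push_cast
    rw [abs_mul, abs_of_pos (pow_pos hqpos _)]
  have hlog := Real.log_nonneg hprod
  rw [habs, Real.log_mul (mul_pos (pow_pos hqpos _) hDpos).ne' (Finset.prod_ne_zero_iff.2 hpos),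
    Real.log_mul (pow_pos hqpos _).ne' hDpos.ne', Real.log_pow, Real.log_prod (fun p hp => hpos p hp)] at hlog
  push_cast at hlog
  have hk : 4 * (n : ℝ) * (Real.log q + Real.log ((C : ℝ) * B)) ≤ 4 * n * (L + Real.log (2 * C)) :=
    mul_le_mul_of_nonneg_left hlogs (by positivity)
  have hk2 : L + Real.log (2 * C) ≤ 10000 / 14775 * n := by linarith
  have hk3 : 4 * (n : ℝ) * (L + Real.log (2 * C)) ≤ 4 * n * (10000 / 14775 * n) :=
    mul_le_mul_of_nonneg_left hk2 (by positivity)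
  have hnn : 0 < (n : ℝ) ^ 2 := by positivity
  have e5 : 4 * (n : ℝ) * (10000 / 14775 * n) = 40000 / 14775 * (n : ℝ) ^ 2 := by ring
  rw [e5] at hk3
  linarith

end

end Pool.Agent.TH120.ZE
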