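import Pool.Agent.H383.Z34.G1Mfin

/-! The archimedean comparison for `1, ζ(3), ζ(4)`, for every `n` (not only `n ≡ 1 mod 24`). -/

open Polynomial Pool.Agent.H337R2

namespace Pool.Agent.TH120.ZE

noncomputable section

open Pool.Agent.H336R2.HD (PF1 good cpr cpr_nonneg chain one_le_PF1 g215_ge ch1)
open Pool.Agent.ZF Pool.Agent.ZF.G1M

/-- chain 4, with a longer last block -/
def ch4' (n N : ℕ) : List (ℕ × ℕ × ℚ) :=
  [(10 * n, 24 * N, 21/2), (11 * n, 24 * N, 23/2), (12 * n, 48 * N, 13), (14 * n, 96 * N, 16),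
   (18 * n, 192 * N, 22), (26 * n, 576 * N, 38), (50 * n, 1200 * N, 75), (100 * n, 2400 * N, 150),
   (200 * n, 60, 215)]

lemma good1' {n N : ℕ} (hN : 1 ≤ N) (hn : 24 * N ≤ n) : good n (2 * n) 0 (ch1 n N) := by
  have h1 : (1 : ℝ) ≤ N := by exact_mod_cast hN
  have h2 : 24 * (N : ℝ) ≤ n := by exact_mod_cast hn
  simp only [ch1, good]
  refine ⟨by omega, by omega, by norm_num, ?_, by omega, by omega, by norm_num, ?_, by omega, by omega, by norm_num, ?_, by omega, by omega, by norm_num, ?_, by omega, by omega, by norm_num, ?_, by omega, by omega, by norm_num, ?_, by omega, by omega, by norm_num, ?_, by omega, by omega, by norm_num, ?_, by omega, by omega, by norm_num, ?_, by omega, by omega, by norm_num, ?_, by omega, by omega, by norm_num, ?_, by omega, by omega, by norm_num, ?_, by omega, by omega, by norm_num, ?_, by omega, by omega, by norm_num, ?_, by omega, by omega, by norm_num, ?_, by omega, by omega, by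 norm_num, ?_, by omega⟩ <;>
    push_cast <;> linarith

lemma good2' {n N : ℕ} (hN : 1 ≤ N) (hn : 24 * N ≤ n) : good n (3 * n) (2 * n) (ch2 n N) := by
  have h1 : (1 : ℝ) ≤ N := by exact_mod_cast hN
  have h2 : 24 * (N : ℝ) ≤ n := by exact_mod_cast hn
  simp only [ch2, good]
  refine ⟨by omega, by omega, by norm_num, ?_, by omega, by omega, by norm_num, ?_, by omega⟩ <;>
    push_cast <;> linarith

lemma good3' {n N : ℕ} (hN : 1 ≤ N) (hn : 24 * N ≤ n) : good n (10 * n) (3 * n) (ch3 n N) := by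
  have h1 : (1 : ℝ) ≤ N := by exact_mod_cast hN
  have h2 : 24 * (N : ℝ) ≤ n := by exact_mod_cast hn
  simp only [ch3, good]
  refine ⟨by omega, by omega, by norm_num, ?_, by omega, by omega, by norm_num, ?_, by omega,
    by omega, by norm_num, ?_, by omega, by omega, by norm_num, ?_, by omega, by omega,
    by norm_num, ?_, by omega, by omega, by norm_num, ?_, by omega, by omega,
    by norm_num, ?_, by omega⟩ <;>
    push_cast <;> linarith

lemma good4' {n N : ℕ} (hN : 1 ≤ N) (hn : 24 * N ≤ n) :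
    good n (200 * n + 60) (10 * n) (ch4' n N) := by
  have h1 : (1 : ℝ) ≤ N := by exact_mod_cast hN
  have h2 : 24 * (N : ℝ) ≤ n := by exact_mod_cast hn
  simp only [ch4', good]
  refine ⟨by omega, by omega, by norm_num, ?_, by omega, by omega, by norm_num, ?_, by omega,
    by omega, by norm_num, ?_, by omega, by omega, by norm_num, ?_, by omega, by omega,
    by norm_num, ?_, by omega, by omega, by norm_num, ?_, by omega, by omega,
    by norm_num, ?_, by omega, by omega, by norm_num, ?_, by omega, by omega,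
    by norm_num, ?_, by omega⟩ <;>
    push_cast <;> linarith

lemma key_prod' (g : ℚ → ℝ) (n N : ℕ) :
    cpr g (ch1 n N) * cpr g (ch2 n N) ^ 4 * cpr g (ch3 n N) ^ 6 * cpr g (ch4' n N) ^ 4 =
    ((FXG.map fun x => g x.1 ^ x.2).prod ^ N) ^ 2 * g 215 ^ 240 := by
  simp only [cpr, ch1, ch2, ch3, ch4', FXG, List.map_cons, List.map_nil, List.prod_cons,
    List.prod_nil]
  ring

lemma abs_aux' (E F g Y s r : ℝ) (hE : 0 ≤ E) (hF : 0 ≤ F) (hY : 1 ≤ Y) (hs : 0 ≤ s)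
    (hA : E * (F * g ^ 240) ≤ r ^ 2 * Y) (hB : Y ≤ s ^ 2 * g) :
    E * F * Y ^ 200 ≤ r ^ 2 * s ^ 480 := by
  have hY0 : 0 < Y := by linarith
  have hB' : Y ^ 240 ≤ (s ^ 2 * g) ^ 240 := pow_le_pow_left₀ hY0.le hB _
  have hT : 0 ≤ E * F := mul_nonneg hE hF
  have h3 : E * F * Y ^ 240 ≤ s ^ 480 * (r ^ 2 * Y) := by
    calc E * F * Y ^ 240 ≤ E * F * (s ^ 2 * g) ^ 240 :=
          mul_le_mul_of_nonneg_left hB' hT
      _ = s ^ 480 * (E * (F * g ^ 240)) := by
          have e1 : (s ^ 2 * g) ^ 240 = s ^ 480 * g ^ 240 := by rw [mul_pow, ← pow_mul]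
          rw [e1]
          generalize s ^ 480 = S
          generalize g ^ 240 = G
          ring
      _ ≤ _ := mul_le_mul_of_nonneg_left hA (pow_nonneg hs _)
  have h4 : E * F * Y ^ 200 * Y ≤ r ^ 2 * s ^ 480 * Y := by
    calc E * F * Y ^ 200 * Y = E * F * Y ^ 201 := by ring
      _ ≤ E * F * Y ^ 240 := mul_le_mul_of_nonneg_left (pow_le_pow_right₀ hY (by norm_num)) hT
      _ ≤ _ := h3
      _ = _ := by ring
  exact le_of_mul_le_mul_right h4 hY0

/-- the archimedean comparison for all `n ≥ 24 N` -/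
theorem G1_all : ∃ (C : ℝ) (K : ℕ), 0 < C ∧ ∀ N : ℕ, 1 ≤ N → ∀ n : ℕ, 24 * N ≤ n → ∀ y : ℝ,
    NG n y * Real.exp (-(2 * Real.pi * |y|)) * (1 + y ^ 2) ^ 100 * FXpG ((y / n) ^ 2) ^ N ≤
      C * (n : ℝ) ^ K * Real.exp (n * PhiG) := by
  obtain ⟨C, K, hC, h0⟩ := G1_zero
  refine ⟨215 ^ 240 * C, K + 240, by positivity, ?_⟩
  intro N hN n hnN y
  have hn : 1 ≤ n := by omega
  have hn' : (1 : ℝ) ≤ n := by exact_mod_cast hn
  obtain ⟨g, hg⟩ : ∃ g : ℚ → ℝ, ∀ q : ℚ, g q = 1 + (y / n) ^ 2 / (q : ℝ) ^ 2 := ⟨_, fun _ => rfl⟩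
  have hg0 : ∀ q, 0 ≤ g q := fun q => by rw [hg]; positivity
  have hR := G1_ratio hn y (200 * n + 60) (by omega)
  simp only [Finset.prod_pow] at hR
  change (NG n y * Real.exp (-(2 * Real.pi * |y|))) ^ 2 *
      (PF1 y 0 (2 * n) * PF1 y (2 * n) (3 * n) ^ 4 * PF1 y (3 * n) (10 * n) ^ 6 *
       PF1 y (10 * n) (200 * n + 60) ^ 4) ≤ NG n 0 ^ 2 at hR
  have k1 := chain n hn y g hg _ _ _ (good1' hN hnN)
  have k2 := chain n hn y g hg _ _ _ (good2' hN hnN)
  have k3 := chain n hn y g hg _ _ _ (good3' hN hnN)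
  have k4 := chain n hn y g hg _ _ _ (good4' hN hnN)
  have n1 := cpr_nonneg g hg0 (ch1 n N)
  have n2 := cpr_nonneg g hg0 (ch2 n N)
  have n3 := cpr_nonneg g hg0 (ch3 n N)
  have n4 := cpr_nonneg g hg0 (ch4' n N)
  have p1 := n1.trans k1
  have p2 := n2.trans k2
  have p3 := n3.trans k3
  have p4 := n4.trans k4
  have hS : cpr g (ch1 n N) * cpr g (ch2 n N) ^ 4 * cpr g (ch3 n N) ^ 6 * cpr g (ch4' n N) ^ 4 ≤
      PF1 y 0 (2 * n) * PF1 y (2 * n) (3 * n) ^ 4 * PF1 y (3 * n) (10 * n) ^ 6 *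
       PF1 y (10 * n) (200 * n + 60) ^ 4 := by
    gcongr
  rw [key_prod'] at hS
  have hF : FXpG ((y / n) ^ 2) = (FXG.map fun x => g x.1 ^ x.2).prod := by
    simp only [FXpG, hg]
  rw [← hF] at hS
  have hF0 : 0 ≤ FXpG ((y / n) ^ 2) := by
    rw [hF]
    apply List.prod_nonneg
    intro z hz
    obtain ⟨w, _, rfl⟩ := List.mem_map.mp hz
    exact pow_nonneg (hg0 _) _
  have hg215 : 1 + y ^ 2 ≤ (215 * (n : ℝ)) ^ 2 * g 215 := by
    rw [hg]
    have := g215_ge hn y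
    push_cast
    exact this
  have hN0 : 0 ≤ NG n y := NG_nonneg n y
  have hR0 : 0 ≤ NG n 0 := NG_nonneg n 0
  have h1' := h0 n hn
  have hY1 : 1 ≤ 1 + y ^ 2 := le_add_of_nonneg_right (sq_nonneg y)
  have hmain : (NG n y * Real.exp (-(2 * Real.pi * |y|))) ^ 2 * (FXpG ((y / n) ^ 2) ^ N) ^ 2 *
      (1 + y ^ 2) ^ 200 ≤ NG n 0 ^ 2 * (215 * (n : ℝ)) ^ 480 := by
    have hA : (NG n y * Real.exp (-(2 * Real.pi * |y|))) ^ 2 *
        ((FXpG ((y / n) ^ 2) ^ N) ^ 2 * g 215 ^ 240) ≤ NG n 0 ^ 2 * (1 + y ^ 2) :=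
      ((mul_le_mul_of_nonneg_left hS (sq_nonneg _)).trans hR).trans
        (le_mul_of_one_le_right (sq_nonneg _) hY1)
    exact abs_aux' _ _ _ _ _ _ (by positivity) (by positivity) hY1 (by positivity) hA hg215
  have hsq : (NG n y * Real.exp (-(2 * Real.pi * |y|)) * (1 + y ^ 2) ^ 100 *
      FXpG ((y / n) ^ 2) ^ N) ^ 2 ≤ ((215 * (n : ℝ)) ^ 240 * NG n 0) ^ 2 := by
    generalize FXpG ((y / n) ^ 2) ^ N = F at hmain ⊢
    generalize Real.exp (-(2 * Real.pi * |y|)) = e at hmain ⊢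
    generalize 1 + y ^ 2 = Y at hmain hY1 ⊢
    generalize NG n y = r at hmain ⊢
    generalize NG n 0 = r0 at hmain ⊢
    calc (r * e * Y ^ 100 * F) ^ 2 = (r * e) ^ 2 * F ^ 2 * Y ^ 200 := by
          rw [mul_pow, mul_pow, ← pow_mul]; ring
      _ ≤ r0 ^ 2 * (215 * (n : ℝ)) ^ 480 := hmain
      _ = _ := by rw [mul_pow ((215 * (n : ℝ)) ^ 240) r0, ← pow_mul, mul_comm]
  have hfin := (le_abs_self _).trans (abs_le_of_sq_le_sq hsq (by positivity))
  calc NG n y * Real.exp (-(2 * Real.pi * |y|)) * (1 + y ^ 2) ^ 100 * FXpG ((y / n) ^ 2) ^ N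
      ≤ (215 * (n : ℝ)) ^ 240 * NG n 0 := hfin
    _ ≤ (215 * (n : ℝ)) ^ 240 * (C * (n : ℝ) ^ K * Real.exp (n * PhiG)) :=
        mul_le_mul_of_nonneg_left h1' (by positivity)
    _ = 215 ^ 240 * C * (n : ℝ) ^ (K + 240) * Real.exp (n * PhiG) := by
        rw [mul_pow, pow_add]; ring

end

end Pool.Agent.TH120.ZE
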