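import Pool.Agent.TH120.ZE.G1N
import Pool.Agent.H383.Z34.G4

/-! The determinant bound for an arbitrary functional, for every `n`
(variation of `Pool/Agent/H383/Z34/G4.lean`, which is restricted to `n = 24 N + 1`). -/

open Polynomial Pool.Agent.H337R2 Filter Topology

namespace Pool.Agent.TH120.ZE

noncomputable section

open Pool.Agent.ZF Pool.Agent.ZF.G4

lemma loc_spec' {N r i : ℕ} (hr : r ≤ 96) (hi : i < 96 * N + r) :
    (2 * (ho (loc N i).1 * N) + (loc N i).2 = i) ∧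
      (((loc N i).1 ≤ 2 ∧ (loc N i).2 < 2 * (sG (loc N i).1 * N)) ∨
        ((loc N i).1 = 3 ∧ (loc N i).2 < 96)) := by
  unfold loc
  split_ifs with h1 h2 h3
  · refine ⟨?_, Or.inl ⟨by omega, ?_⟩⟩
    · simp only [ho0]; omega
    · show i < 2 * (11 * N); omega
  · refine ⟨?_, Or.inl ⟨by omega, ?_⟩⟩
    · simp only [ho1]; omega
    · show i - 22 * N < 2 * (17 * N); omega
  · refine ⟨?_, Or.inl ⟨by omega, ?_⟩⟩
    · simp only [ho2]; omega
    · show i - 56 * N < 2 * (20 * N); omega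
  · refine ⟨?_, Or.inr ⟨rfl, ?_⟩⟩
    · simp only [ho3]; omega
    · show i - 96 * N < 96; omega

lemma sum_loc' (N r : ℕ) (f : ℕ → ℕ → ℝ) :
    ∑ i ∈ Finset.range (96 * N + r), f (loc N i).1 (loc N i).2 =
      (∑ b ∈ Finset.range 3, ∑ j ∈ Finset.range (2 * (sG b * N)), f b j) +
        ∑ j ∈ Finset.range r, f 3 j := by
  have e : 96 * N + r = 22 * N + 34 * N + 40 * N + r := by ring
  rw [e, Finset.sum_range_add, Finset.sum_range_add, Finset.sum_range_add]
  have s0 : 2 * (sG 0 * N) = 22 * N := by show 2 * (11 * N) = 22 * N; ring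
  have s1 : 2 * (sG 1 * N) = 34 * N := by show 2 * (17 * N) = 34 * N; ring
  have s2 : 2 * (sG 2 * N) = 40 * N := by show 2 * (20 * N) = 40 * N; ring
  rw [Finset.sum_range_succ (fun b => ∑ j ∈ Finset.range (2 * (sG b * N)), f b j) 2,
    Finset.sum_range_succ (fun b => ∑ j ∈ Finset.range (2 * (sG b * N)), f b j) 1,
    Finset.sum_range_one, s0, s1, s2]
  congr 1
  · congr 1
    · congr 1
      · apply Finset.sum_congr rfl
        intro i hi
        rw [Finset.mem_range] at hi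
        unfold loc
        rw [if_pos hi]
      · apply Finset.sum_congr rfl
        intro i hi
        rw [Finset.mem_range] at hi
        unfold loc
        rw [if_neg (by omega), if_pos (by omega), Nat.add_sub_cancel_left]
    · apply Finset.sum_congr rfl
      intro i hi
      rw [Finset.mem_range] at hi
      unfold loc
      rw [if_neg (by omega), if_neg (by omega), if_pos (by omega)]
      congr 1
      show 22 * N + 34 * N + i - 56 * N = i
      omega
  · apply Finset.sum_congr rfl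
    intro i hi
    rw [Finset.mem_range] at hi
    unfold loc
    rw [if_neg (by omega), if_neg (by omega), if_neg (by omega)]
    congr 1
    show 22 * N + 34 * N + 40 * N + i - 96 * N = i
    omega

/-- the weight -/
def WV (n : ℕ) (y : ℝ) : ℝ :=
  NG n y * Real.exp (-(2 * Real.pi * |y|)) * (1 + y ^ 2) ^ 100

lemma WV_nonneg (n : ℕ) (y : ℝ) : 0 ≤ WV n y := by
  unfold WV
  have := G4.NG_nonneg n y
  positivity

/-- the estimate of `G1_all` -/
def HypA (C : ℝ) (K : ℕ) : Prop := ∀ N : ℕ, 1 ≤ N → ∀ n : ℕ, 24 * N ≤ n → ∀ y : ℝ,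
    NG n y * Real.exp (-(2 * Real.pi * |y|)) * (1 + y ^ 2) ^ 100 * FXpG ((y / n) ^ 2) ^ N ≤
      C * (n : ℝ) ^ K * Real.exp (n * PhiG)

lemma corner' {C : ℝ} {K : ℕ} (hC : 0 < C) (h : HypA C K) {n N : ℕ} (hN : 1 ≤ N) (hn : 24 * N ≤ n)
    {b : ℕ} (hb : b ≤ 3) (y : ℝ) :
    WV n y * FB n N b y ≤ Real.exp (la C K n N b) := by
  have h0 : (0 : ℝ) < n := by exact_mod_cast (by omega : 0 < n)
  have h1 := h N hN n hn y
  have h2 := FB_le (n := n) (by omega) N b hb y
  have e : Real.exp (la C K n N b) * 2 ^ (tG b * N) =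
      (C * (n : ℝ) ^ K * Real.exp (n * PhiG)) * (n : ℝ) ^ (4 * (ho b * N)) := by
    unfold la
    rw [Real.exp_sub, Real.exp_add, Real.exp_add, Real.exp_add, Real.exp_log hC]
    have e1 : Real.exp (K * Real.log n) = (n : ℝ) ^ K := by
      rw [Real.exp_nat_mul, Real.exp_log h0]
    have e2 : Real.exp (4 * (ho b * N) * Real.log n) = (n : ℝ) ^ (4 * (ho b * N)) := by
      have : (4 * (ho b * N) * Real.log n : ℝ) = ((4 * (ho b * N) : ℕ) : ℝ) * Real.log n := by
        push_cast; ring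
      rw [this, Real.exp_nat_mul, Real.exp_log h0]
    have e3 : Real.exp (tG b * N * Real.log 2) = (2 : ℝ) ^ (tG b * N) := by
      have : (tG b * N * Real.log 2 : ℝ) = ((tG b * N : ℕ) : ℝ) * Real.log 2 := by
        push_cast; ring
      rw [this, Real.exp_nat_mul, Real.exp_log (by norm_num)]
    rw [e1, e2, e3]
    field_simp
  have hpos : (0 : ℝ) < 2 ^ (tG b * N) := by positivity
  refine le_of_mul_le_mul_right ?_ hpos
  rw [e]
  calc WV n y * FB n N b y * 2 ^ (tG b * N) = WV n y * (FB n N b y * 2 ^ (tG b * N)) := by ring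
    _ ≤ WV n y * ((n : ℝ) ^ (4 * (ho b * N)) * FXpG ((y / n) ^ 2) ^ N) :=
        mul_le_mul_of_nonneg_left h2 (WV_nonneg n y)
    _ = (WV n y * FXpG ((y / n) ^ 2) ^ N) * (n : ℝ) ^ (4 * (ho b * N)) := by ring
    _ ≤ _ := mul_le_mul_of_nonneg_right h1 (by positivity)

/-- the condition on the position -/
def PosA (N b j : ℕ) : Prop := (b ≤ 2 ∧ j < 2 * (sG b * N)) ∨ (b = 3 ∧ j < 96)

lemma ypow' {y : ℝ} {k : ℕ} (hk : k ≤ 95) : (1 + y ^ 2) * (y ^ 2) ^ k ≤ (1 + y ^ 2) ^ 100 := by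
  have h9 : (1 : ℝ) ≤ 1 + y ^ 2 := by nlinarith [sq_nonneg y]
  have h10 : (y ^ 2) ^ k ≤ (1 + y ^ 2) ^ k := pow_le_pow_left₀ (sq_nonneg y) (by linarith) k
  calc (1 + y ^ 2) * (y ^ 2) ^ k ≤ (1 + y ^ 2) * (1 + y ^ 2) ^ k :=
        mul_le_mul_of_nonneg_left h10 (by positivity)
    _ = (1 + y ^ 2) ^ (k + 1) := (pow_succ' _ _).symm
    _ ≤ (1 + y ^ 2) ^ 100 := pow_le_pow_right₀ h9 (by omega)

lemma PA_bound' {C : ℝ} {K : ℕ} (hC : 0 < C) (h : HypA C K) {n N : ℕ} (hN : 1 ≤ N)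
    (hn : 24 * N ≤ n) {b j : ℕ} (hp : PosA N b j) (y : ℝ) :
    NG n y * Real.exp (-(2 * Real.pi * |y|)) * (1 + y ^ 2) *
      ‖aeval (zl y) (PA n N b j)‖ ^ 2 ≤ Real.exp (al C K n N b j) := by
  set T := NG n y * Real.exp (-(2 * Real.pi * |y|)) with hT
  have hT0 : 0 ≤ T := mul_nonneg (G4.NG_nonneg n y) (Real.exp_pos _).le
  have hWW : WV n y = T * (1 + y ^ 2) ^ 100 := rfl
  set F := FB n N b y with hF
  have hF0 : 0 ≤ F := FB_nonneg n N b y
  rcases hp with ⟨hb, hj⟩ | ⟨rfl, hj⟩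
  · have hb3 : b ≠ 3 := by omega
    have hk : j / 2 ≤ sG b * N := by omega
    have hS : 0 < sG b * N := Nat.mul_pos (sG_pos b) hN
    have c1 := corner' hC h hN hn (b := b) (by omega) y
    have c2 := corner' hC h hN hn (b := b + 1) (by omega) y
    rw [FB_succ, ← mul_assoc] at c2
    have h3 := interp (mul_nonneg (WV_nonneg n y) (FB_nonneg n N b y))
      (sq_nonneg ‖aeval (zl y) (QB n b)‖) hS hk c1 c2
    rw [PA_norm _ _ _ _ hb3, ← hF]
    unfold al
    rw [if_neg hb3]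
    refine le_trans ?_ h3
    rw [← hF]
    set G := (‖aeval (zl y) (QB n b)‖ ^ 2) ^ (j / 2) with hG
    have hG0 : 0 ≤ G := by rw [hG]; positivity
    calc T * (1 + y ^ 2) * (F * G * (y ^ 2) ^ (j % 2))
        = T * ((1 + y ^ 2) * (y ^ 2) ^ (j % 2)) * F * G := by ring
      _ ≤ T * (1 + y ^ 2) ^ 100 * F * G := by
          apply mul_le_mul_of_nonneg_right _ hG0
          apply mul_le_mul_of_nonneg_right _ hF0
          exact mul_le_mul_of_nonneg_left (ypow' (by omega)) hT0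
      _ = WV n y * F * G := by rw [hWW]
  · have c1 := corner' hC h hN hn (b := 3) (by omega) y
    rw [PA_norm3, ← hF]
    unfold al
    rw [if_pos rfl]
    refine le_trans ?_ c1
    calc T * (1 + y ^ 2) * (F * (y ^ 2) ^ j)
        = T * ((1 + y ^ 2) * (y ^ 2) ^ j) * F := by ring
      _ ≤ T * (1 + y ^ 2) ^ 100 * F := by
          apply mul_le_mul_of_nonneg_right _ hF0
          exact mul_le_mul_of_nonneg_left (ypow' (by omega)) hT0
      _ = WV n y * F := by rw [hWW]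

lemma al_le' {C : ℝ} {K n N b j i : ℕ} (hN : 1 ≤ N) (hp : PosA N b j)
    (hi : 2 * (ho b * N) + j = i) :
    al C K n N b j ≤ Real.log C + K * Real.log n + n * PhiG + 2 * (i : ℝ) * Real.log n -
      ta N b j := by
  rcases hp with hp | ⟨rfl, hj⟩
  · exact al_le hN (Or.inl hp) hi
  · have hl : 0 ≤ Real.log n := Real.log_natCast_nonneg n
    unfold al ta la
    rw [if_pos rfl, if_pos rfl]
    have h1 : 4 * ((ho 3 : ℝ) * N) * Real.log n ≤ 2 * (i : ℝ) * Real.log n := by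
      apply mul_le_mul_of_nonneg_right _ hl
      have : 4 * (ho 3 * N) ≤ 2 * i := by omega
      exact_mod_cast this
    have h2 : 0 ≤ (tG 3 : ℝ) * N * Real.log 2 := by positivity
    linarith

lemma sum_ta' {N : ℕ} (hN : 1 ≤ N) (r : ℕ) :
    ∑ i ∈ Finset.range (96 * N + r), ta N (loc N i).1 (loc N i).2 =
      (7513 * N - 75) * (N * Real.log 2) := by
  have h0 := sum_ta hN
  rw [sum_loc N (ta N)] at h0
  rw [sum_loc' N r (ta N)]
  have h3 : ∀ r : ℕ, ∑ j ∈ Finset.range r, ta N 3 j = 0 := by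
    intro r
    apply Finset.sum_eq_zero
    intro j _
    unfold ta
    rw [if_pos rfl]
  rw [h3] at h0 ⊢
  exact h0

lemma sum_al' {C : ℝ} {K n N r : ℕ} (hN : 1 ≤ N) (hr : r ≤ 96) :
    ∑ i ∈ Finset.range (96 * N + r), al C K n N (loc N i).1 (loc N i).2 ≤
      (96 * N + r : ℕ) * (Real.log C + K * Real.log n + n * PhiG) +
      ((96 * N + r : ℕ) : ℝ) ^ 2 * Real.log n - (7513 * N - 75) * (N * Real.log 2) := by
  have h1 : ∀ i ∈ Finset.range (96 * N + r), al C K n N (loc N i).1 (loc N i).2 ≤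
      (Real.log C + K * Real.log n + n * PhiG) + 2 * (i : ℝ) * Real.log n -
      ta N (loc N i).1 (loc N i).2 := by
    intro i hi
    rw [Finset.mem_range] at hi
    obtain ⟨h2, h3⟩ := loc_spec' hr hi
    exact al_le' hN h3 h2
  have h2 := Finset.sum_le_sum h1
  rw [Finset.sum_sub_distrib, Finset.sum_add_distrib, Finset.sum_const, Finset.card_range,
    nsmul_eq_mul, sum_ta' hN] at h2
  have hl : 0 ≤ Real.log n := Real.log_natCast_nonneg n
  have h3 : ∑ i ∈ Finset.range (96 * N + r), 2 * (i : ℝ) * Real.log n ≤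
      ((96 * N + r : ℕ) : ℝ) ^ 2 * Real.log n := by
    have e1 : ∑ i ∈ Finset.range (96 * N + r), 2 * (i : ℝ) * Real.log n =
        (2 * ∑ i ∈ Finset.range (96 * N + r), (i : ℝ)) * Real.log n := by
      rw [← Finset.sum_mul, ← Finset.mul_sum]
    rw [e1, sum_k]
    apply mul_le_mul_of_nonneg_right _ hl
    have : (0 : ℝ) ≤ ((96 * N + r : ℕ) : ℝ) := by positivity
    nlinarith
  linarith

lemma sq_le_entry' {n N r : ℕ} {C C2 : ℝ} {K : ℕ} (hC : 0 < C) (hC2 : 0 < C2) (h : HypA C K)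
    {L : ℚ[X] →ₗ[ℚ] ℚ} (h2 : LHyp C2 n L) (hN : 1 ≤ N) (hn : 24 * N ≤ n) (hm : 4 * n = 96 * N + r)
    {b j b' j' : ℕ} (hp : PosA N b j) (hp' : PosA N b' j')
    (hd : 2 * (ho b * N) + j < 96 * N + r) (hd' : 2 * (ho b' * N) + j' < 96 * N + r) :
    |((L (PA n N b j * PA n N b' j') : ℚ) : ℝ)| ^ 2 ≤
      (C2 * Real.exp (al C K n N b j)) * (C2 * Real.exp (al C K n N b' j')) := by
  set B := Real.exp ((al C K n N b j + al C K n N b' j') / 2) with hB
  have e2 : B ^ 2 = Real.exp (al C K n N b j) * Real.exp (al C K n N b' j') := by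
    rw [hB, ← Real.exp_nat_mul, ← Real.exp_add]
    congr 1
    push_cast
    ring
  have key : |((L (PA n N b j * PA n N b' j') : ℚ) : ℝ)| ≤ C2 * B := by
    apply h2
    · rw [(PA_monic n N b j).natDegree_mul (PA_monic n N b' j'), PA_deg, PA_deg]
      omega
    · intro y
      have hy : (0 : ℝ) < 1 + y ^ 2 := by positivity
      rw [← div_eq_mul_inv, le_div_iff₀ hy, map_mul, norm_mul]
      have p1 := PA_bound' hC h hN hn hp y
      have p2 := PA_bound' hC h hN hn hp' y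
      set T := NG n y * Real.exp (-(2 * Real.pi * |y|)) * (1 + y ^ 2) with hT
      have hT0 : 0 ≤ T := by
        have := G4.NG_nonneg n y
        rw [hT]; positivity
      have e1 : NG n y * (‖aeval (zl y) (PA n N b j)‖ * ‖aeval (zl y) (PA n N b' j')‖) *
          Real.exp (-(2 * Real.pi * |y|)) * (1 + y ^ 2) =
          T * (‖aeval (zl y) (PA n N b j)‖ * ‖aeval (zl y) (PA n N b' j')‖) := by rw [hT]; ring
      rw [e1]
      apply le_of_pow_le_pow_left₀ two_ne_zero (Real.exp_pos _).le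
      rw [e2]
      calc (T * (‖aeval (zl y) (PA n N b j)‖ * ‖aeval (zl y) (PA n N b' j')‖)) ^ 2
          = (T * ‖aeval (zl y) (PA n N b j)‖ ^ 2) * (T * ‖aeval (zl y) (PA n N b' j')‖ ^ 2) := by ring
        _ ≤ _ := mul_le_mul p1 p2 (by positivity) (by positivity)
  calc |((L (PA n N b j * PA n N b' j') : ℚ) : ℝ)| ^ 2 ≤ (C2 * B) ^ 2 :=
        pow_le_pow_left₀ (abs_nonneg _) key 2
    _ = C2 * C2 * B ^ 2 := by ring
    _ = _ := by rw [e2]; ring

lemma log_det_le' {n N r : ℕ} {C C2 : ℝ} {K : ℕ} (hC : 0 < C) (hC2 : 0 < C2) (h : HypA C K)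
    {L : ℚ[X] →ₗ[ℚ] ℚ} (h2 : LHyp C2 n L) (hN : 1 ≤ N) (hn : 24 * N ≤ n) (hm : 4 * n = 96 * N + r)
    (hr : r ≤ 96)
    (hD : (Matrix.of fun i j : Fin (96 * N + r) => L (X ^ (i.1 + j.1))).det ≠ 0) :
    Real.log |(((Matrix.of fun i j : Fin (96 * N + r) => L (X ^ (i.1 + j.1))).det : ℚ) : ℝ)| ≤
      (96 * N + r : ℕ) * Real.log (96 * N + r : ℕ) +
      (96 * N + r : ℕ) * Real.log C2 +
      ∑ i ∈ Finset.range (96 * N + r), al C K n N (loc N i).1 (loc N i).2 := by
  set P : ℕ → ℚ[X] := fun i => PA n N (loc N i).1 (loc N i).2 with hP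
  have hA1 := Pool.Agent.H336R2.HD.A1_det_monic L (96 * N + r) P (fun i hi => by
    obtain ⟨e2, _⟩ := loc_spec' hr hi
    exact ⟨PA_monic _ _ _ _, by rw [hP]; simp only; rw [PA_deg]; exact e2⟩)
  have hdet : (((Matrix.of fun i j : Fin (96 * N + r) => L (X ^ (i.1 + j.1))).det : ℚ) : ℝ) =
      (Matrix.of fun i j : Fin (96 * N + r) => ((L (P i * P j) : ℚ) : ℝ)).det := by
    rw [← hA1]
    have := RingHom.map_det (Rat.castHom ℝ) (Matrix.of fun i j : Fin (96 * N + r) => L (P i * P j))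
    simp only [Rat.coe_castHom] at this
    rw [this]
    congr 1
  have hA4 := Pool.Agent.H336R2.HD.A4_abs_det (96 * N + r)
    (Matrix.of fun i j : Fin (96 * N + r) => ((L (P i * P j) : ℚ) : ℝ))
    (fun i => C2 * Real.exp (al C K n N (loc N i).1 (loc N i).2)) (fun i => by positivity) (by
      intro i j
      obtain ⟨a1, a2⟩ := loc_spec' hr i.2
      obtain ⟨b1, b2⟩ := loc_spec' hr j.2
      simp only [Matrix.of_apply]
      exact sq_le_entry' hC hC2 h h2 hN hn hm a2 b2 (by rw [a1]; exact i.2) (by rw [b1]; exact j.2))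
  rw [← hdet] at hA4
  have hpos : 0 < |(((Matrix.of fun i j : Fin (96 * N + r) => L (X ^ (i.1 + j.1))).det : ℚ) : ℝ)| :=
    abs_pos.2 (by exact_mod_cast hD)
  have hlog := Real.log_le_log hpos hA4
  have hf : (0 : ℝ) < ((96 * N + r).factorial : ℝ) := by exact_mod_cast Nat.factorial_pos _
  have hm' : (0 : ℝ) < ((96 * N + r : ℕ) : ℝ) := by exact_mod_cast (by omega : 0 < 96 * N + r)
  rw [Finset.prod_mul_distrib, Finset.prod_const, Finset.card_range, ← Real.exp_sum,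
    Real.log_mul hf.ne' (by positivity), Real.log_mul (by positivity) (by positivity), Real.log_pow,
    Real.log_exp] at hlog
  have hfac : Real.log ((96 * N + r).factorial : ℝ) ≤ (96 * N + r : ℕ) * Real.log (96 * N + r : ℕ) := by
    rw [← Real.log_pow]
    apply Real.log_le_log hf
    exact_mod_cast Nat.factorial_le_pow (96 * N + r)
  linarith

/-- total archimedean bound, for every large `n` -/
theorem arch_all (C2 : ℝ) (hC2 : 0 < C2) (ε : ℝ) (hε : 0 < ε) : ∀ᶠ n : ℕ in atTop,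
    ∀ L : ℚ[X] →ₗ[ℚ] ℚ,
    (∀ Q : ℚ[X], Q.natDegree ≤ 8 * n - 2 → ∀ B : ℝ,
      (∀ y : ℝ, NG n y * ‖aeval (zl y) Q‖ * Real.exp (-(2 * Real.pi * |y|)) ≤ B * (1 + y ^ 2)⁻¹) →
      |((L Q : ℚ) : ℝ)| ≤ C2 * B) →
    (Matrix.of fun i j : Fin (4 * n) => L (X ^ (i.1 + j.1))).det ≠ 0 →
    Real.log |(((Matrix.of fun i j : Fin (4 * n) => L (X ^ (i.1 + j.1))).det : ℚ) : ℝ)| ≤
      16 * (n : ℝ) ^ 2 * Real.log n + (4 * PhiG - 7513 / 576 * Real.log 2 + ε) * (n : ℝ) ^ 2 := by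
  obtain ⟨C, K, hC, h⟩ := G1_all
  set c : ℝ := |Real.log 4 + Real.log C + Real.log C2| + 200 with hc
  have hev := final_ev c (K + 1) ε hε
  filter_upwards [hev, eventually_ge_atTop 48] with n hN hn48 L hL hD
  obtain ⟨N, r, hnN, hN1, hn, hr, hm⟩ : ∃ N r : ℕ, n < 24 * N + 24 ∧ 1 ≤ N ∧ 24 * N ≤ n ∧ r ≤ 96 ∧
      4 * n = 96 * N + r := by
    refine ⟨n / 24, 4 * (n % 24), ?_, ?_, ?_, ?_, ?_⟩ <;> omega
  have hmn : ((96 * N + r : ℕ) : ℝ) = 4 * n := by
    rw [← hm]; push_cast; ring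
  have hdet : (Matrix.of fun i j : Fin (96 * N + r) => L (X ^ (i.1 + j.1))).det =
      (Matrix.of fun i j : Fin (4 * n) => L (X ^ (i.1 + j.1))).det := by
    rw [hm]
  rw [← hdet] at hD ⊢
  have hlog := log_det_le' hC hC2 h hL hN1 hn hm hr hD
  have hsum := sum_al' (C := C) (K := K) (n := n) (N := N) hN1 hr
  have hn0 : (1 : ℝ) ≤ n := by exact_mod_cast (by omega : 1 ≤ n)
  have hl : 0 ≤ Real.log n := Real.log_natCast_nonneg n
  have hl2 : 0 ≤ Real.log 2 := Real.log_nonneg (by norm_num)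
  have hl2' : Real.log 2 ≤ 1 := by
    have := Real.log_two_lt_d9
    linarith
  have hNn : (n : ℝ) < 24 * N + 24 := by exact_mod_cast hnN
  have hNn' : 24 * (N : ℝ) ≤ n := by exact_mod_cast hn
  have hN0 : (1 : ℝ) ≤ N := by exact_mod_cast hN1
  rw [hmn] at hlog hsum
  have p1 : Real.log (4 * (n : ℝ)) = Real.log 4 + Real.log n :=
    Real.log_mul (by norm_num) (by positivity)
  rw [p1] at hlog
  have p4 : -((7513 * (N : ℝ) - 75) * (N * Real.log 2)) ≤
      - (7513 / 576 * Real.log 2) * (n : ℝ) ^ 2 + 800 * (n : ℝ) := by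
    have h1 : 7513 / 576 * (n : ℝ) ^ 2 - (7513 * (N : ℝ) - 75) * N ≤ 800 * n := by
      have h3 : (n : ℝ) ^ 2 ≤ (24 * N + 24) * n := by nlinarith
      nlinarith
    have h2 : (7513 / 576 * (n : ℝ) ^ 2 - (7513 * (N : ℝ) - 75) * N) * Real.log 2 ≤ 800 * n := by
      have h4 : (7513 / 576 * (n : ℝ) ^ 2 - (7513 * (N : ℝ) - 75) * N) * Real.log 2 ≤
          800 * n * Real.log 2 := mul_le_mul_of_nonneg_right h1 hl2
      nlinarith
    linarith
  have p6 : 4 * (n : ℝ) * (Real.log 4 + Real.log C + Real.log C2) ≤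
      4 * n * |Real.log 4 + Real.log C + Real.log C2| :=
    mul_le_mul_of_nonneg_left (le_abs_self _) (by positivity)
  have hN' : 4 * (n : ℝ) * (c + ((K : ℝ) + 1) * Real.log n) ≤ ε * (n : ℝ) ^ 2 := by
    have := hN
    push_cast at this
    exact this
  rw [hc] at hN'
  have e2 : 4 * (n : ℝ) * (|Real.log 4 + Real.log C + Real.log C2| + 200 + ((K : ℝ) + 1) * Real.log n) =
      4 * n * |Real.log 4 + Real.log C + Real.log C2| + 800 * n +
      4 * n * (((K : ℝ) + 1) * Real.log n) := by ring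
  rw [e2] at hN'
  have e3 : 16 * (n : ℝ) ^ 2 * Real.log n + (4 * PhiG - 7513 / 576 * Real.log 2 + ε) * (n : ℝ) ^ 2 =
      16 * (n : ℝ) ^ 2 * Real.log n + 4 * PhiG * (n : ℝ) ^ 2 - 7513 / 576 * Real.log 2 * (n : ℝ) ^ 2 +
      ε * (n : ℝ) ^ 2 := by ring
  rw [e3]
  have e4 : 4 * (n : ℝ) * (Real.log C + K * Real.log n + n * PhiG) + (4 * (n : ℝ)) ^ 2 * Real.log n =
      4 * (n : ℝ) * (Real.log 4 + Real.log C + Real.log C2) + 4 * n * (((K : ℝ) + 1) * Real.log n) +
      4 * PhiG * (n : ℝ) ^ 2 + 16 * (n : ℝ) ^ 2 * Real.log n -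
      4 * (n : ℝ) * (Real.log 4 + Real.log n) - 4 * (n : ℝ) * Real.log C2 := by ring
  linarith only [hlog, hsum, p4, p6, hN', e4]

end

end Pool.Agent.TH120.ZE
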