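import Pool.Agent.H383.Z34.G1Mfin

/-! The size of the weight on the line, lower bounds. -/

open Polynomial Pool.Agent.H337R2 Filter Topology

namespace Pool.Agent.TH120.ZE

noncomputable section

open Pool.Agent.ZF Pool.Agent.ZF.G1Aaux

lemma HM_tendsto {y : ℝ} (hy : y ≠ 0) : Tendsto (HM y) atTop (𝓝 (Real.cosh (Real.pi * y))) := by
  have hπ := Real.pi_pos
  have h1 := sinh_prod hy
  have h2 := sinh_prod (x := 2 * y) (by positivity)
  have hS : Real.sinh (Real.pi * y) ≠ 0 := by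
    rw [Ne, Real.sinh_eq_zero]
    positivity
  have h3 : Tendsto (fun M : ℕ => 2 * M) atTop atTop := tendsto_id.const_mul_atTop' (by norm_num)
  have h4 := h2.comp h3
  have h6 := h4.div h1 (div_ne_zero hS (by positivity))
  have e : Real.sinh (Real.pi * (2 * y)) / (Real.pi * (2 * y)) / (Real.sinh (Real.pi * y) / (Real.pi * y)) =
      Real.cosh (Real.pi * y) := by
    rw [show Real.pi * (2 * y) = 2 * (Real.pi * y) by ring, Real.sinh_two_mul]
    field_simp
  rw [e] at h6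
  refine h6.congr (fun M => ?_)
  simp only [Pi.div_apply, Function.comp]
  rw [HM_split]
  have : (∏ j ∈ Finset.range M, (1 + y ^ 2 / ((j : ℝ) + 1) ^ 2)) ≠ 0 := by
    rw [Finset.prod_ne_zero_iff]
    intro j _
    positivity
  field_simp

/-- upper bound of a block -/
lemma block_le (y : ℝ) {a : ℕ} (ha : 1 ≤ a) {b : ℕ} (hab : a ≤ b) :
    ∏ m ∈ Finset.Ioc a b, w y m ≤ Real.exp (y ^ 2 * (1 / a - 1 / b)) := by
  induction b, hab using Nat.le_induction with
  | base => simp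
  | succ b hab ih =>
    have hb : (1 : ℝ) ≤ b := by exact_mod_cast ha.trans hab
    rw [Finset.prod_Ioc_succ_top (by omega)]
    have h1 : w y (b + 1) ≤ Real.exp (y ^ 2 * (1 / b - 1 / ((b + 1 : ℕ) : ℝ))) := by
      unfold w
      push_cast
      refine le_trans ?_ (Real.add_one_le_exp _)
      have h2 : y ^ 2 / ((b : ℝ) + 1 - 1 / 2) ^ 2 ≤ y ^ 2 * (1 / b - 1 / (b + 1)) := by
        rw [div_eq_mul_inv]
        apply mul_le_mul_of_nonneg_left _ (sq_nonneg y)
        have e : (1 / (b : ℝ) - 1 / (b + 1)) = ((b : ℝ) * (b + 1))⁻¹ := by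
          field_simp
          ring
        rw [e]
        apply inv_anti₀ (by positivity)
        nlinarith
      linarith
    calc _ ≤ Real.exp (y ^ 2 * (1 / a - 1 / b)) * Real.exp (y ^ 2 * (1 / b - 1 / ((b + 1 : ℕ) : ℝ))) :=
          mul_le_mul ih h1 (w_pos y _).le (Real.exp_pos _).le
      _ = _ := by
          rw [← Real.exp_add]
          congr 1
          ring

lemma exp_le_HM (y : ℝ) {M : ℕ} (hM : 1 ≤ M) :
    Real.exp (Real.pi * |y|) ≤ 2 * HM y M * Real.exp (y ^ 2 / M) := by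
  have hM' : (1 : ℝ) ≤ M := by exact_mod_cast hM
  have hH : (1 : ℝ) ≤ HM y M := by
    have := HM_mono y (Nat.zero_le M)
    simpa [HM] using this
  by_cases hy : y = 0
  · subst hy
    simp
    linarith
  · have h1 : Real.cosh (Real.pi * y) ≤ HM y M * Real.exp (y ^ 2 / M) := by
      apply le_of_tendsto (HM_tendsto hy)
      filter_upwards [eventually_ge_atTop M] with N hN
      rw [HM_w y N, ← Finset.prod_Ioc_consecutive _ (Nat.zero_le M) hN, ← HM_w]
      apply mul_le_mul_of_nonneg_left _ (by linarith)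
      refine (block_le y hM hN).trans ?_
      apply Real.exp_le_exp.2
      have hN' : (0 : ℝ) < N := by exact_mod_cast (by omega : 0 < N)
      have h0 : 0 < 1 / (N : ℝ) := by positivity
      have h00 : 1 / (M : ℝ) - 1 / N ≤ 1 / M := by linarith
      exact (mul_le_mul_of_nonneg_left h00 (sq_nonneg y)).trans (le_of_eq (mul_one_div _ _))
    have h2 : Real.exp (Real.pi * |y|) ≤ 2 * Real.cosh (Real.pi * y) := by
      rw [Real.cosh_eq]
      rcases abs_cases y with ⟨h, _⟩ | ⟨h, _⟩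
      · rw [h]
        have := Real.exp_pos (-(Real.pi * y))
        linarith
      · rw [h, mul_neg]
        have := Real.exp_pos (Real.pi * y)
        linarith
    nlinarith

/-- the weight in terms of the value at the real point -/
lemma NG_sq {n : ℕ} (hn : 1 ≤ n) (y : ℝ) :
    NG n y ^ 2 * (∏ m ∈ Finset.Ioc (3 * n) (10 * n), w y m) ^ 2 = NG n 0 ^ 2 * HM y (2 * n) ^ 3 := by
  rw [HM_w]
  set W1 := ∏ m ∈ Finset.Ioc 0 (2 * n), w y m with hW1
  set W3 := ∏ m ∈ Finset.Ioc (3 * n) (10 * n), w y m with hW3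
  have hpos : ∀ s : Finset ℕ, 0 < ∏ m ∈ s, w y m := fun s =>
    Finset.prod_pos fun m _ => w_pos y m
  have hW3p : 0 < W3 := hpos _
  have e1 : Finset.Icc 1 (2 * n) = Finset.Ioc 0 (2 * n) := by
    ext m; rw [Finset.mem_Icc, Finset.mem_Ioc]; omega
  have e2 : Finset.Icc (3 * n + 1) (10 * n) = Finset.Ioc (3 * n) (10 * n) := by
    ext m; rw [Finset.mem_Icc, Finset.mem_Ioc]; omega
  set c : ℝ := (((7 * n).factorial : ℕ) : ℝ) ^ 2 / (((2 * n).factorial : ℕ) : ℝ) ^ 3 with hc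
  set P1 := ∏ m ∈ Finset.Ioc 0 (2 * n), ‖zl 0 + m‖ ^ 3 with hP1
  set P3 := ∏ m ∈ Finset.Ioc (3 * n) (10 * n), ‖zl 0 + m‖ ^ 2 with hP3
  have hP3pos : 0 < P3 := Finset.prod_pos fun m _ => by
    have := norm_pos_iff.2 (zl_ne 0 m)
    positivity
  have hR0 : NG n 0 ^ 2 = (c * P1) ^ 2 / P3 ^ 2 := by
    unfold NG
    rw [e1, e2, div_pow]
  have hRy : NG n y ^ 2 = (c * P1) ^ 2 / P3 ^ 2 * (W1 ^ 3 / W3 ^ 2) := by
    unfold NG
    rw [e1, e2, div_pow, ← hc, mul_pow, prod_w y _ 3, prod_w y _ 2, ← hP1, ← hP3,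
      ← hW1, ← hW3]
    field_simp
  rw [hR0, hRy]
  field_simp

/-- the reciprocal of the weight, with the value at the real point -/
theorem wt_le {n : ℕ} (hn : 1 ≤ n) (y : ℝ) :
    (NG n 0 * Real.exp (2 * Real.pi * |y|)) ^ 2 ≤
      NG n y ^ 2 * (8 * Real.exp (Real.pi * |y| + 59 / 30 * y ^ 2 / n)) := by
  have hn1 : (1 : ℝ) ≤ n := by exact_mod_cast hn
  have h1 := exp_le_HM y (M := 2 * n) (by omega)
  have hHp : 0 ≤ HM y (2 * n) := by rw [HM_w]; exact Finset.prod_nonneg fun m _ => (w_pos y m).le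
  have h2 := pow_le_pow_left₀ (Real.exp_pos _).le h1 3
  have h3 := block_le y (a := 3 * n) (by omega) (b := 10 * n) (by omega)
  set W3 := ∏ m ∈ Finset.Ioc (3 * n) (10 * n), w y m with hW3
  have hW3p : 0 < W3 := Finset.prod_pos fun m _ => w_pos y m
  have h4 := pow_le_pow_left₀ hW3p.le h3 2
  have hsq := NG_sq hn y
  rw [← hW3] at hsq
  have e1 : Real.exp (2 * Real.pi * |y|) ^ 2 = Real.exp (Real.pi * |y|) * Real.exp (Real.pi * |y|) ^ 3 := by
    rw [← Real.exp_nat_mul, ← Real.exp_nat_mul, ← Real.exp_add]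
    congr 1
    push_cast
    ring
  rw [mul_pow, e1]
  calc NG n 0 ^ 2 * (Real.exp (Real.pi * |y|) * Real.exp (Real.pi * |y|) ^ 3)
      ≤ NG n 0 ^ 2 * (Real.exp (Real.pi * |y|) * (2 * HM y (2 * n) * Real.exp (y ^ 2 / (2 * n : ℕ))) ^ 3) := by
        gcongr
    _ = 8 * Real.exp (Real.pi * |y|) * Real.exp (y ^ 2 / (2 * n : ℕ)) ^ 3 * (NG n 0 ^ 2 * HM y (2 * n) ^ 3) := by
        ring
    _ = 8 * Real.exp (Real.pi * |y|) * Real.exp (y ^ 2 / (2 * n : ℕ)) ^ 3 * (NG n y ^ 2 * W3 ^ 2) := by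
        rw [← hsq]
    _ ≤ 8 * Real.exp (Real.pi * |y|) * Real.exp (y ^ 2 / (2 * n : ℕ)) ^ 3 *
        (NG n y ^ 2 * Real.exp (y ^ 2 * (1 / ((3 * n : ℕ) : ℝ) - 1 / ((10 * n : ℕ) : ℝ))) ^ 2) := by
        gcongr
    _ = NG n y ^ 2 * (8 * (Real.exp (Real.pi * |y|) * Real.exp (y ^ 2 / (2 * n : ℕ)) ^ 3 *
        Real.exp (y ^ 2 * (1 / ((3 * n : ℕ) : ℝ) - 1 / ((10 * n : ℕ) : ℝ))) ^ 2)) := by ring
    _ = _ := by
        rw [← Real.exp_nat_mul, ← Real.exp_nat_mul, ← Real.exp_add, ← Real.exp_add]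
        congr 3
        push_cast
        field_simp
        ring

/-! ### the value at the real point -/

lemma binom_le (N r : ℕ) (hr : r ≤ N) (p q : ℝ) (hp : 0 ≤ p) (hq : 0 ≤ q) (hpq : p + q = 1) :
    (N.choose r : ℝ) * (p ^ r * q ^ (N - r)) ≤ 1 := by
  have h := add_pow p q N
  rw [hpq, one_pow] at h
  rw [h]
  have h2 := Finset.single_le_sum (f := fun m => p ^ m * q ^ (N - m) * (N.choose m : ℝ))
    (s := Finset.range (N + 1)) (fun i _ => by positivity) (Finset.mem_range.2 (by omega : r < N + 1))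
  refine le_trans (le_of_eq ?_) h2
  ring

lemma prod_Ioc_fac (a : ℕ) {b : ℕ} (hab : a ≤ b) :
    (∏ k ∈ Finset.Ioc a b, (k : ℝ)) * (a.factorial : ℝ) = (b.factorial : ℝ) := by
  induction b, hab using Nat.le_induction with
  | base => simp
  | succ b hab ih =>
    rw [Finset.prod_Ioc_succ_top (by omega), Nat.factorial_succ]
    push_cast
    rw [← ih]
    ring

lemma half_prod (M : ℕ) (hM : 1 ≤ M) :
    (M.factorial : ℝ) ≤ 2 * M * ∏ m ∈ Finset.Ioc 0 M, ((m : ℝ) - 1 / 2) := by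
  induction M, hM using Nat.le_induction with
  | base => simp
            norm_num
  | succ M hM ih =>
    have hM' : (1 : ℝ) ≤ M := by exact_mod_cast hM
    rw [Finset.prod_Ioc_succ_top (by omega), Nat.factorial_succ]
    push_cast
    set P := ∏ m ∈ Finset.Ioc 0 M, ((m : ℝ) - 1 / 2) with hP
    have hP0 : 0 ≤ P := by
      refine Finset.prod_nonneg fun m hm => ?_
      have : (1 : ℝ) ≤ m := by exact_mod_cast (Finset.mem_Ioc.1 hm).1
      linarith
    have h1 : ((M : ℝ) + 1) * (M.factorial : ℝ) ≤ (M + 1) * (2 * M * P) :=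
      mul_le_mul_of_nonneg_left ih (by positivity)
    nlinarith [mul_nonneg hP0 (by positivity : (0 : ℝ) ≤ (M + 1))]

theorem NG0_ge {n : ℕ} (hn : 1 ≤ n) : Real.exp (n * PhiG) ≤ (4 * (n : ℝ)) ^ 3 * NG n 0 := by
  have hn1 : (1 : ℝ) ≤ n := by exact_mod_cast hn
  have hn0 : (0 : ℝ) < n := by linarith
  have e1 : ∏ m ∈ Finset.Icc 1 (2 * n), ‖zl 0 + (m : ℂ)‖ ^ 3 =
      (∏ m ∈ Finset.Ioc 0 (2 * n), ((m : ℝ) - 1 / 2)) ^ 3 := by
    rw [← Finset.prod_pow]
    exact Finset.prod_congr (by ext m; rw [Finset.mem_Icc, Finset.mem_Ioc]; omega)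
      fun m hm => by rw [G1ZAux.norm_zl_zero (Finset.mem_Ioc.1 hm).1]
  have e2 : ∏ k ∈ Finset.Icc (3 * n + 1) (10 * n), ‖zl 0 + (k : ℂ)‖ ^ 2 =
      (∏ k ∈ Finset.Ioc (3 * n) (10 * n), ((k : ℝ) - 1 / 2)) ^ 2 := by
    rw [← Finset.prod_pow]
    exact Finset.prod_congr (by ext m; rw [Finset.mem_Icc, Finset.mem_Ioc]; omega)
      fun m hm => by rw [G1ZAux.norm_zl_zero (by have := (Finset.mem_Ioc.1 hm).1; omega)]
  unfold NG
  rw [e1, e2]
  set A : ℝ := ∏ m ∈ Finset.Ioc 0 (2 * n), ((m : ℝ) - 1 / 2) with hA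
  set Q : ℝ := ∏ k ∈ Finset.Ioc (3 * n) (10 * n), ((k : ℝ) - 1 / 2) with hQ
  have hA0 : 0 < A := by
    refine Finset.prod_pos fun m hm => ?_
    have : (1 : ℝ) ≤ m := by exact_mod_cast (Finset.mem_Ioc.1 hm).1
    linarith
  have hAge := half_prod (2 * n) (by omega)
  rw [← hA] at hAge
  push_cast at hAge
  have hQ0 : 0 < Q := by
    refine Finset.prod_pos fun m hm => ?_
    have : (1 : ℝ) ≤ m := by exact_mod_cast (by have := (Finset.mem_Ioc.1 hm).1; omega : 1 ≤ m)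
    linarith
  have hQle : Q ≤ ∏ k ∈ Finset.Ioc (3 * n) (10 * n), (k : ℝ) := by
    apply Finset.prod_le_prod
    · intro m hm
      have : (1 : ℝ) ≤ m := by exact_mod_cast (by have := (Finset.mem_Ioc.1 hm).1; omega : 1 ≤ m)
      linarith
    · intro m _
      linarith
  have hf := prod_Ioc_fac (3 * n) (b := 10 * n) (by omega)
  have hch : (((10 * n).choose (3 * n) : ℕ) : ℝ) * ((3 * n).factorial : ℝ) * ((7 * n).factorial : ℝ) =
      ((10 * n).factorial : ℝ) := by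
    have := Nat.choose_mul_factorial_mul_factorial (show 3 * n ≤ 10 * n by omega)
    rw [show 10 * n - 3 * n = 7 * n by omega] at this
    exact_mod_cast this
  have hP : ∏ k ∈ Finset.Ioc (3 * n) (10 * n), (k : ℝ) =
      (((10 * n).choose (3 * n) : ℕ) : ℝ) * ((7 * n).factorial : ℝ) := by
    have h3 : (0 : ℝ) < ((3 * n).factorial : ℝ) := by positivity
    apply mul_right_cancel₀ h3.ne'
    rw [hf, ← hch]
    ring
  have hb := binom_le (10 * n) (3 * n) (by omega) (3 / 10) (7 / 10) (by norm_num) (by norm_num) (by norm_num)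
  rw [show 10 * n - 3 * n = 7 * n by omega] at hb
  set p : ℝ := (3 / 10 : ℝ) ^ (3 * n) * (7 / 10) ^ (7 * n) with hp
  have hp0 : 0 < p := by positivity
  have hexp : Real.exp (n * PhiG) = p ^ 2 := by
    have e3 : (3 / 10 : ℝ) ^ (3 * n) = Real.exp ((3 * n : ℕ) * (Real.log 3 - Real.log 10)) := by
      rw [← Real.log_div (by norm_num) (by norm_num), Real.exp_nat_mul, Real.exp_log (by norm_num)]
    have e4 : (7 / 10 : ℝ) ^ (7 * n) = Real.exp ((7 * n : ℕ) * (Real.log 7 - Real.log 10)) := by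
      rw [← Real.log_div (by norm_num) (by norm_num), Real.exp_nat_mul, Real.exp_log (by norm_num)]
    rw [hp, e3, e4, ← Real.exp_add, ← Real.exp_nat_mul]
    congr 1
    unfold PhiG
    push_cast
    ring
  rw [hexp]
  -- `p * Q ≤ (7n)!`
  have h7 : p * Q ≤ ((7 * n).factorial : ℝ) := by
    calc p * Q ≤ p * ((((10 * n).choose (3 * n) : ℕ) : ℝ) * ((7 * n).factorial : ℝ)) := by
          rw [← hP]; gcongr
      _ = ((((10 * n).choose (3 * n) : ℕ) : ℝ) * p) * ((7 * n).factorial : ℝ) := by ring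
      _ ≤ 1 * ((7 * n).factorial : ℝ) := by gcongr
      _ = _ := one_mul _
  have h8 : (1 : ℝ) ≤ 4 * n * (A / ((2 * n).factorial : ℝ)) := by
    rw [← mul_div_assoc, le_div_iff₀ (by positivity)]
    linarith
  have hf2 : (0 : ℝ) < ((2 * n).factorial : ℝ) := by positivity
  have h9 : p ≤ ((7 * n).factorial : ℝ) / Q := by rwa [le_div_iff₀ hQ0]
  calc p ^ 2 ≤ (((7 * n).factorial : ℝ) / Q) ^ 2 := by gcongr
    _ = (((7 * n).factorial : ℝ) / Q) ^ 2 * 1 ^ 3 := by ring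
    _ ≤ (((7 * n).factorial : ℝ) / Q) ^ 2 * (4 * n * (A / ((2 * n).factorial : ℝ))) ^ 3 := by gcongr
    _ = _ := by
        field_simp

end

end Pool.Agent.TH120.ZE
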