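import Pool.Agent.TH120.ZE.R1
import Pool.Agent.H312R3.M34.Rho

/-! Lagrange interpolation at the symmetric nodes `j / 2`. -/

open Polynomial Pool.Agent.H337R2

namespace Pool.Agent.TH120.ZE

noncomputable section

open Pool.Agent.ZF Pool.Agent.ZF.Mea

/-- the nodes -/
def nd (n j : ℕ) : ℝ := ((j : ℝ) - (4 * n - 1)) / 2

lemma sum_sq_gen (N : ℕ) (a : ℝ) : ∑ l ∈ Finset.range N, ((l : ℝ) - a) ^ 2 =
    N * (N - 1) * (2 * N - 1) / 6 - a * N * (N - 1) + a ^ 2 * N := by
  induction N with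
  | zero => simp
  | succ N ih =>
    rw [Finset.sum_range_succ, ih]
    push_cast
    ring

lemma sum_sq_nd {n : ℕ} (hn : 1 ≤ n) :
    ∑ l ∈ Finset.range (8 * n - 2 + 1), nd n l ^ 2 ≤ 32 / 3 * (n : ℝ) ^ 3 := by
  have hn1 : (1 : ℝ) ≤ n := by exact_mod_cast hn
  have h1 : ∑ l ∈ Finset.range (8 * n - 2 + 1), nd n l ^ 2 =
      (∑ l ∈ Finset.range (8 * n - 2 + 1), ((l : ℝ) - (4 * n - 1)) ^ 2) / 4 := by
    rw [Finset.sum_div]
    apply Finset.sum_congr rfl
    intro l _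
    unfold nd
    ring
  have hN : ((8 * n - 2 + 1 : ℕ) : ℝ) = 8 * n - 1 := by
    rw [show 8 * n - 2 + 1 = 8 * n - 1 by omega, Nat.cast_sub (by omega)]
    push_cast
    ring
  rw [h1, sum_sq_gen, hN]
  nlinarith [mul_nonneg (by linarith : (0 : ℝ) ≤ n - 1) (by linarith : (0 : ℝ) ≤ n), sq_nonneg ((n : ℝ) - 1)]

lemma norm_node (y : ℝ) {k : ℕ} (hk : 1 ≤ k) :
    ‖-(k : ℂ) - zl y‖ ≤ k * Real.exp (y ^ 2 / (2 * (k : ℝ) ^ 2)) := by
  have hk1 : (1 : ℝ) ≤ k := by exact_mod_cast hk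
  have hk0 : (0 : ℝ) < k := by linarith
  have e : -(k : ℂ) - zl y = -(zl y + (k : ℂ)) := by ring
  rw [e, norm_neg]
  apply le_of_pow_le_pow_left₀ two_ne_zero (by positivity)
  rw [zl_add, norm_lf, Real.sq_sqrt (by positivity), mul_pow, ← Real.exp_nat_mul]
  have e2 : ((2 : ℕ) : ℝ) * (y ^ 2 / (2 * (k : ℝ) ^ 2)) = y ^ 2 / (k : ℝ) ^ 2 := by
    push_cast
    field_simp
  rw [e2]
  calc ((k : ℝ) - 1 / 2) ^ 2 + y ^ 2 ≤ (k : ℝ) ^ 2 * (y ^ 2 / (k : ℝ) ^ 2 + 1) := by
        have : (k : ℝ) ^ 2 * (y ^ 2 / (k : ℝ) ^ 2 + 1) = y ^ 2 + k ^ 2 := by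
          field_simp
        rw [this]
        nlinarith
    _ ≤ _ := mul_le_mul_of_nonneg_left (Real.add_one_le_exp _) (by positivity)

theorem lagr2 {n : ℕ} (hn : 1 ≤ n) (Q : ℚ[X]) (hQ : Q.natDegree ≤ 8 * n - 2) (k : ℕ) (hk1 : 1 ≤ k) (T : ℝ)
    (hT : ∀ j : ℕ, j ≤ 8 * n - 2 → ‖aeval (zl (nd n j)) Q‖ * 2 ^ (8 * n - 2) ≤
      T * ((j.factorial : ℝ) * ((8 * n - 2 - j).factorial : ℝ))) :
    |((Q.eval (-(k : ℚ)) : ℚ) : ℝ)| ≤
      (8 * n) * (T * ((k : ℝ) ^ (8 * n - 2) * Real.exp (16 * (n : ℝ) ^ 3 / (3 * (k : ℝ) ^ 2)))) := by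
  classical
  have hn1 : (1 : ℝ) ≤ n := by exact_mod_cast hn
  have hk1r : (1 : ℝ) ≤ k := by exact_mod_cast hk1
  have hk0 : (0 : ℝ) < k := by linarith
  have hT0 : 0 ≤ T := by
    have h := hT 0 (Nat.zero_le _)
    have h2 : (0 : ℝ) < ((Nat.factorial 0 : ℕ) : ℝ) * ((8 * n - 2 - 0).factorial : ℝ) := by positivity
    have h3 : 0 ≤ ‖aeval (zl (nd n 0)) Q‖ * 2 ^ (8 * n - 2) := by positivity
    exact nonneg_of_mul_nonneg_left (h3.trans h) h2
  set D : ℕ := 8 * n - 2 with hD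
  set f : ℂ[X] := Q.map (algebraMap ℚ ℂ) with hf
  have hinj : Set.InjOn (fun j : ℕ => zl (nd n j)) (Finset.range (D + 1) : Set ℕ) := by
    intro a _ b _ hab
    have := congrArg Complex.im hab
    simp only [zl, nd] at this
    simp at this
    exact this
  have hdeg : f.degree < (Finset.range (D + 1)).card := by
    rw [Finset.card_range]
    refine lt_of_le_of_lt (Polynomial.degree_map_le) ?_
    refine lt_of_le_of_lt Polynomial.degree_le_natDegree ?_
    exact_mod_cast (by omega : Q.natDegree < D + 1)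
  have hint := Lagrange.eq_interpolate hinj hdeg
  have hev : f.eval (-(k : ℂ)) = ∑ j ∈ Finset.range (D + 1), f.eval (zl (nd n j)) *
      ∏ l ∈ (Finset.range (D + 1)).erase j, ((zl (nd n j) - zl (nd n l))⁻¹ * (-(k : ℂ) - zl (nd n l))) := by
    conv_lhs => rw [hint]
    rw [Lagrange.interpolate_apply, Polynomial.eval_finsetSum]
    apply Finset.sum_congr rfl
    intro j _
    rw [Polynomial.eval_mul, Polynomial.eval_C]
    congr 1
    unfold Lagrange.basis
    rw [Polynomial.eval_prod]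
    apply Finset.prod_congr rfl
    intro l _
    unfold Lagrange.basisDivisor
    simp
  have hfe : ∀ z : ℂ, f.eval z = aeval z Q := by
    intro z
    rw [hf, Polynomial.eval_map_algebraMap]
  have h0 : |((Q.eval (-(k : ℚ)) : ℚ) : ℝ)| = ‖f.eval (-(k : ℂ))‖ := by
    have e : f.eval (-(k : ℂ)) = (((Q.eval (-(k : ℚ)) : ℚ) : ℝ) : ℂ) := by
      rw [hf]
      have : (-(k : ℂ)) = algebraMap ℚ ℂ (-(k : ℚ)) := by simp
      rw [this, Polynomial.eval_map_algebraMap, Polynomial.aeval_algebraMap_apply]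
      simp
    rw [e, Complex.norm_real, Real.norm_eq_abs]
  rw [h0, hev]
  refine (norm_sum_le _ _).trans ?_
  have hterm : ∀ j ∈ Finset.range (D + 1), ‖f.eval (zl (nd n j)) *
      ∏ l ∈ (Finset.range (D + 1)).erase j, ((zl (nd n j) - zl (nd n l))⁻¹ * (-(k : ℂ) - zl (nd n l)))‖ ≤
      T * ((k : ℝ) ^ D * Real.exp (16 * (n : ℝ) ^ 3 / (3 * (k : ℝ) ^ 2))) := by
    intro j hj
    have hjD : j ≤ D := by
      rw [Finset.mem_range] at hj
      omega
    rw [norm_mul, hfe, norm_prod]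
    have hc : ((Finset.range (D + 1)).erase j).card = D := by
      rw [Finset.card_erase_of_mem hj, Finset.card_range]
      rfl
    have e1 : ∏ l ∈ (Finset.range (D + 1)).erase j, ‖(zl (nd n j) - zl (nd n l))⁻¹ * (-(k : ℂ) - zl (nd n l))‖ =
        2 ^ D * (∏ l ∈ (Finset.range (D + 1)).erase j, |(j : ℝ) - l|)⁻¹ *
        ∏ l ∈ (Finset.range (D + 1)).erase j, ‖-(k : ℂ) - zl (nd n l)‖ := by
      have e0 : (2 : ℝ) ^ D = ∏ _l ∈ (Finset.range (D + 1)).erase j, (2 : ℝ) := by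
        rw [Finset.prod_const, hc]
      rw [e0, ← Finset.prod_inv_distrib, ← Finset.prod_mul_distrib, ← Finset.prod_mul_distrib]
      apply Finset.prod_congr rfl
      intro l _
      rw [norm_mul, norm_inv]
      congr 1
      have : zl (nd n j) - zl (nd n l) = ((((j : ℝ) - l) / 2 : ℝ) : ℂ) * Complex.I := by
        unfold zl nd
        push_cast
        ring
      rw [this, norm_mul, Complex.norm_I, mul_one, Complex.norm_real, Real.norm_eq_abs, abs_div,
        abs_of_pos (by norm_num : (0 : ℝ) < 2), inv_div]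
      rfl
    rw [e1, prod_dist D j hjD]
    have h3 : ∏ l ∈ (Finset.range (D + 1)).erase j, ‖-(k : ℂ) - zl (nd n l)‖ ≤
        (k : ℝ) ^ D * Real.exp (16 * (n : ℝ) ^ 3 / (3 * (k : ℝ) ^ 2)) := by
      calc _ ≤ ∏ l ∈ (Finset.range (D + 1)).erase j, ((k : ℝ) * Real.exp (nd n l ^ 2 / (2 * (k : ℝ) ^ 2))) := by
            apply Finset.prod_le_prod
            · intro l _; exact norm_nonneg _
            · intro l _; exact norm_node _ hk1
        _ = (k : ℝ) ^ D * Real.exp ((∑ l ∈ (Finset.range (D + 1)).erase j, nd n l ^ 2) / (2 * (k : ℝ) ^ 2)) := by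
            rw [Finset.prod_mul_distrib, Finset.prod_const, hc, ← Real.exp_sum, Finset.sum_div]
        _ ≤ _ := by
            apply mul_le_mul_of_nonneg_left _ (by positivity)
            apply Real.exp_le_exp.2
            have h4 : ∑ l ∈ (Finset.range (D + 1)).erase j, nd n l ^ 2 ≤ 32 / 3 * (n : ℝ) ^ 3 :=
              (Finset.sum_le_sum_of_subset_of_nonneg (Finset.erase_subset _ _)
                (fun l _ _ => sq_nonneg _)).trans (sum_sq_nd hn)
            calc _ ≤ 32 / 3 * (n : ℝ) ^ 3 / (2 * (k : ℝ) ^ 2) :=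
                  div_le_div_of_nonneg_right h4 (by positivity)
              _ = _ := by
                  field_simp
                  ring
    have hfp : (0 : ℝ) < (j.factorial : ℝ) * ((D - j).factorial : ℝ) := by positivity
    have h5 : ‖aeval (zl (nd n j)) Q‖ * (2 ^ D * ((j.factorial : ℝ) * ((D - j).factorial : ℝ))⁻¹) ≤ T := by
      rw [← mul_assoc, ← div_eq_mul_inv, div_le_iff₀ hfp]
      exact hT j hjD
    calc ‖aeval (zl (nd n j)) Q‖ * (2 ^ D * ((j.factorial : ℝ) * ((D - j).factorial : ℝ))⁻¹ *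
          ∏ l ∈ (Finset.range (D + 1)).erase j, ‖-(k : ℂ) - zl (nd n l)‖)
        = (‖aeval (zl (nd n j)) Q‖ * (2 ^ D * ((j.factorial : ℝ) * ((D - j).factorial : ℝ))⁻¹)) *
          ∏ l ∈ (Finset.range (D + 1)).erase j, ‖-(k : ℂ) - zl (nd n l)‖ := by ring
      _ ≤ _ := mul_le_mul h5 h3 (Finset.prod_nonneg fun _ _ => norm_nonneg _) hT0
  refine (Finset.sum_le_sum hterm).trans ?_
  rw [Finset.sum_const, Finset.card_range, nsmul_eq_mul]
  apply mul_le_mul_of_nonneg_right _ (by positivity)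
  have : D + 1 ≤ 8 * n := by omega
  exact_mod_cast this

/-- entropy bound -/
lemma ent_bound {n : ℕ} (hn : 1 ≤ n) (a b : ℕ) (hab : a + b = 8 * n - 2) (s t : ℝ) (hs : 0 < s) (ht : 0 < t)
    (hst : s + t = 8) :
    Real.exp (a * Real.log s + b * Real.log t + (8 * n - 2) * Real.log n - 8 * n) ≤
      (a.factorial : ℝ) * (b.factorial : ℝ) := by
  have hn1 : (1 : ℝ) ≤ n := by exact_mod_cast hn
  have hn0 : (0 : ℝ) < n := by linarith
  have h1 := pow_le_fac_exp (s * n) (by positivity) a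
  have h2 := pow_le_fac_exp (t * n) (by positivity) b
  have h3 := mul_le_mul h1 h2 (by positivity) (by positivity)
  have hab' : (a : ℝ) + b = 8 * n - 2 := by
    have : (((a + b : ℕ)) : ℝ) = ((8 * n - 2 : ℕ) : ℝ) := by rw [hab]
    rw [Nat.cast_sub (by omega)] at this
    push_cast at this
    exact this
  have e : Real.exp (a * Real.log s + b * Real.log t + (8 * n - 2) * Real.log n - 8 * n) * Real.exp (8 * n) =
      (s * n) ^ a * (t * n) ^ b := by
    rw [← Real.exp_add]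
    have e1 : (s * n) ^ a = Real.exp (a * (Real.log s + Real.log n)) := by
      rw [← Real.log_mul hs.ne' hn0.ne', Real.exp_nat_mul, Real.exp_log (by positivity)]
    have e2 : (t * n) ^ b = Real.exp (b * (Real.log t + Real.log n)) := by
      rw [← Real.log_mul ht.ne' hn0.ne', Real.exp_nat_mul, Real.exp_log (by positivity)]
    rw [e1, e2, ← Real.exp_add]
    congr 1
    rw [← hab']
    ring
  have e3 : Real.exp (s * n) * (a.factorial : ℝ) * (Real.exp (t * n) * (b.factorial : ℝ)) =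
      (a.factorial : ℝ) * (b.factorial : ℝ) * Real.exp (8 * n) := by
    rw [← hst, add_mul, Real.exp_add]
    ring
  rw [e3, ← e] at h3
  exact le_of_mul_le_mul_right h3 (Real.exp_pos _)

end

end Pool.Agent.TH120.ZE
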