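import Pool.Agent.TH120.ZE.R2
import Pool.Agent.H383.Z34.G5

/-! The values at the nodes of the Lagrange interpolation. -/

open Polynomial Pool.Agent.H337R2 Filter Topology

namespace Pool.Agent.TH120.ZE

noncomputable section

open Pool.Agent.ZF Pool.Agent.ZF.Mea

lemma l7_lower : 5 * Real.log 2 + Real.log 3 + 2 * Real.log 5 ≤ 4 * Real.log 7 := by
  have h3 : Real.log 2401 = 4 * Real.log 7 := by
    rw [show (2401 : ℝ) = 7 ^ 4 by norm_num, Real.log_pow]; norm_num
  have h4 : Real.log 2400 = 5 * Real.log 2 + Real.log 3 + 2 * Real.log 5 := by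
    rw [show (2400 : ℝ) = 2 ^ 5 * 3 * 5 ^ 2 by norm_num, Real.log_mul (by norm_num) (by norm_num),
      Real.log_mul (by norm_num) (by norm_num), Real.log_pow, Real.log_pow]
    norm_num
  rw [← h3, ← h4]
  exact Real.log_le_log (by norm_num) (by norm_num)

/-- real inequality for the poles -/
lemma ineq_one (x : ℝ) (h3 : 3 ≤ x) (h10 : x ≤ 10) :
    2 * ((x - 3) * Real.log (7 / 5) + (10 - x) * Real.log (7 / 2)) +
      3 * (2 * Real.log 4 + (x - 2) * Real.log (4 / 3)) + 8 * Real.log x + 16 / (3 * x ^ 2) ≤ 3879 / 100 := by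
  have e1 : Real.log (7 / 5) = Real.log 7 - Real.log 5 := Real.log_div (by norm_num) (by norm_num)
  have e2 : Real.log (7 / 2) = Real.log 7 - Real.log 2 := Real.log_div (by norm_num) (by norm_num)
  have e3 : Real.log 4 = 2 * Real.log 2 := by
    rw [show (4 : ℝ) = 2 ^ 2 by norm_num, Real.log_pow]; norm_num
  have e4 : Real.log (4 / 3) = 2 * Real.log 2 - Real.log 3 := by
    rw [Real.log_div (by norm_num) (by norm_num), e3]
  have e8 : Real.log 8 = 3 * Real.log 2 := by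
    rw [show (8 : ℝ) = 2 ^ 3 by norm_num, Real.log_pow]; norm_num
  rw [e1, e2, e3, e4]
  have h7 := G5h.log_seven
  have g7 := l7_lower
  have g2 := Real.log_two_gt_d9
  have k2 := Real.log_two_lt_d9
  have g3' := Real.log_three_gt_d9
  have k3 := Real.log_three_lt_d9
  have g5 := Real.log_five_gt_d9
  have k5 := Real.log_five_lt_d9
  have hx0 : 0 < x := by linarith
  rcases le_or_gt 5 x with h5 | h5
  · have hl : Real.log x ≤ 3 * Real.log 2 + (x / 8 - 1) := by
      have h := Real.log_le_sub_one_of_pos (show 0 < x / 8 by positivity)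
      rw [Real.log_div hx0.ne' (by norm_num), e8] at h
      linarith
    have hq : 16 / (3 * x ^ 2) ≤ 16 / 75 := by
      rw [div_le_div_iff₀ (by positivity) (by norm_num)]
      nlinarith
    have hs : 0 ≤ (10 - x) * (1 + 8 * Real.log 2 - 2 * Real.log 5 - 3 * Real.log 3) :=
      mul_nonneg (by linarith) (by linarith)
    nlinarith
  · have hl : Real.log x ≤ Real.log 5 + (x / 5 - 1) := by
      have h := Real.log_le_sub_one_of_pos (show 0 < x / 5 by positivity)
      rw [Real.log_div hx0.ne' (by norm_num)] at h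
      linarith
    have hq : 16 / (3 * x ^ 2) ≤ 16 / 27 := by
      rw [div_le_div_iff₀ (by positivity) (by norm_num)]
      nlinarith
    have hs : 0 ≤ (5 - x) * (8 / 5 + 8 * Real.log 2 - 2 * Real.log 5 - 3 * Real.log 3) :=
      mul_nonneg (by linarith) (by linarith)
    nlinarith

/-- real inequality for the nodes -/
lemma ineq_two (u : ℝ) (h0 : 0 ≤ u) (h4 : u ≤ 4) : ∃ s t : ℝ, 0 < s ∧ 0 < t ∧ s + t = 8 ∧
    Real.log s + Real.log t ≤ 3 ∧
    -PhiG + Real.pi * u / 4 + 59 * u ^ 2 / 240 + 8 * Real.log 2 + 8 -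
      ((4 + u) * Real.log s + (4 - u) * Real.log t) ≤ 1683 / 100 := by
  have h7 := G5h.log_seven
  have g7 := l7_lower
  have g2 := Real.log_two_gt_d9
  have k2 := Real.log_two_lt_d9
  have g3' := Real.log_three_gt_d9
  have k3 := Real.log_three_lt_d9
  have g5 := Real.log_five_gt_d9
  have k5 := Real.log_five_lt_d9
  have kp := Real.pi_lt_d4
  have hph : PhiG = 14 * Real.log 7 + 6 * Real.log 3 - 20 * (Real.log 2 + Real.log 5) := by
    unfold PhiG
    rw [Real.log_ten_eq]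
  have hpi : Real.pi * u / 4 ≤ 3.1416 * u / 4 := by
    have := mul_le_mul_of_nonneg_right kp.le h0
    linarith
  rcases le_or_gt u (5 / 2) with h5 | h5
  · have e6 : Real.log 6 = Real.log 2 + Real.log 3 := by
      rw [show (6 : ℝ) = 2 * 3 by norm_num, Real.log_mul (by norm_num) (by norm_num)]
    refine ⟨6, 2, by norm_num, by norm_num, by norm_num, ?_, ?_⟩
    · rw [e6]; linarith
    · rw [e6, hph]
      have hu2 : u ^ 2 ≤ 5 / 2 * u := by nlinarith
      nlinarith [mul_nonneg (by linarith : 0 ≤ 5 / 2 - u) (by linarith : 0 ≤ 3.1416 / 4 - Real.log 3 + 59 * (5 / 2) / 240)]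
  · rcases le_or_gt u (13 / 4) with h6 | h6
    · refine ⟨7, 1, by norm_num, by norm_num, by norm_num, ?_, ?_⟩
      · rw [Real.log_one]; linarith
      · rw [Real.log_one, hph]
        have hu2 : u ^ 2 ≤ 23 / 4 * u - 65 / 8 := by nlinarith
        nlinarith [mul_nonneg (by linarith : 0 ≤ 13 / 4 - u) (by linarith : 0 ≤ 3.1416 / 4 - Real.log 7 + 59 * (23 / 4) / 240)]
    · have e15 : Real.log (15 / 2) = Real.log 3 + Real.log 5 - Real.log 2 := by
        rw [show (15 / 2 : ℝ) = 3 * 5 / 2 by norm_num, Real.log_div (by norm_num) (by norm_num),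
          Real.log_mul (by norm_num) (by norm_num)]
      have e12 : Real.log (1 / 2) = -Real.log 2 := by
        rw [one_div, Real.log_inv]
      refine ⟨15 / 2, 1 / 2, by norm_num, by norm_num, by norm_num, ?_, ?_⟩
      · rw [e15, e12]; linarith
      · rw [e15, e12, hph]
        have hu2 : u ^ 2 ≤ 29 / 4 * u - 13 := by nlinarith
        nlinarith [mul_nonneg (by linarith : 0 ≤ u - 13 / 4) (by linarith : 0 ≤ -(3.1416 / 4 - Real.log 3 - Real.log 5 + 59 * (29 / 4) / 240))]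

lemma NG_pos {n : ℕ} (hn : 1 ≤ n) (y : ℝ) : 0 < NG n y := by
  unfold NG
  apply div_pos
  · apply mul_pos (by positivity)
    exact Finset.prod_pos fun m _ => by
      have := norm_pos_iff.2 (zl_ne y m)
      positivity
  · exact Finset.prod_pos fun m _ => by
      have := norm_pos_iff.2 (zl_ne y m)
      positivity

/-- the values at the nodes -/
lemma node_val {n : ℕ} (hn : 1 ≤ n) (Q : ℚ[X]) (B : ℝ)
    (hB : ∀ y : ℝ, NG n y * ‖aeval (zl y) Q‖ * Real.exp (-(2 * Real.pi * |y|)) ≤ B * (1 + y ^ 2)⁻¹) (y : ℝ) :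
    ‖aeval (zl y) Q‖ ≤ B * (3 * (4 * (n : ℝ)) ^ 3 *
      Real.exp (-(n * PhiG) + Real.pi * |y| / 2 + 59 / 60 * y ^ 2 / n)) := by
  have hn1 : (1 : ℝ) ≤ n := by exact_mod_cast hn
  have hn0 : (0 : ℝ) < n := by linarith
  have hNy := NG_pos hn y
  have hN0 := NG_pos hn 0
  have hB0 : 0 ≤ B := by
    have h := hB 0
    have h2 : 0 ≤ NG n 0 * ‖aeval (zl 0) Q‖ * Real.exp (-(2 * Real.pi * |0|)) :=
      mul_nonneg (mul_nonneg hN0.le (norm_nonneg _)) (Real.exp_pos _).le
    have h3 : B * (1 + (0 : ℝ) ^ 2)⁻¹ = B := by norm_num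
    rw [h3] at h
    exact h2.trans h
  have h1 : NG n y * ‖aeval (zl y) Q‖ ≤ B * Real.exp (2 * Real.pi * |y|) := by
    have h := hB y
    have h2 : B * (1 + y ^ 2)⁻¹ ≤ B := by
      apply mul_le_of_le_one_right hB0
      apply inv_le_one_of_one_le₀
      nlinarith [sq_nonneg y]
    rw [Real.exp_neg, ← div_eq_mul_inv] at h
    have h3 := h.trans h2
    rwa [div_le_iff₀ (Real.exp_pos _)] at h3
  have h4 : NG n 0 * Real.exp (2 * Real.pi * |y|) ≤
      NG n y * (3 * Real.exp (Real.pi * |y| / 2 + 59 / 60 * y ^ 2 / n)) := by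
    apply le_of_pow_le_pow_left₀ two_ne_zero (by positivity)
    refine (wt_le hn y).trans ?_
    rw [mul_pow (NG n y), mul_pow (3 : ℝ), ← Real.exp_nat_mul]
    apply mul_le_mul_of_nonneg_left _ (by positivity)
    have e : ((2 : ℕ) : ℝ) * (Real.pi * |y| / 2 + 59 / 60 * y ^ 2 / n) = Real.pi * |y| + 59 / 30 * y ^ 2 / n := by
      push_cast
      ring
    rw [e]
    have := Real.exp_pos (Real.pi * |y| + 59 / 30 * y ^ 2 / n)
    nlinarith
  have h5 := NG0_ge hn
  have h6 : NG n y * (Real.exp (n * PhiG) * ‖aeval (zl y) Q‖) ≤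
      NG n y * (B * (3 * (4 * (n : ℝ)) ^ 3 * Real.exp (Real.pi * |y| / 2 + 59 / 60 * y ^ 2 / n))) := by
    calc NG n y * (Real.exp (n * PhiG) * ‖aeval (zl y) Q‖)
        = Real.exp (n * PhiG) * (NG n y * ‖aeval (zl y) Q‖) := by ring
      _ ≤ ((4 * (n : ℝ)) ^ 3 * NG n 0) * (B * Real.exp (2 * Real.pi * |y|)) := by
          apply mul_le_mul h5 h1 (by positivity) (by positivity)
      _ = (4 * (n : ℝ)) ^ 3 * B * (NG n 0 * Real.exp (2 * Real.pi * |y|)) := by ring
      _ ≤ (4 * (n : ℝ)) ^ 3 * B * (NG n y * (3 * Real.exp (Real.pi * |y| / 2 + 59 / 60 * y ^ 2 / n))) := by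
          apply mul_le_mul_of_nonneg_left h4 (by positivity)
      _ = _ := by ring
  have h7 := le_of_mul_le_mul_left h6 hNy
  have e8 : Real.exp (-(n * PhiG) + Real.pi * |y| / 2 + 59 / 60 * y ^ 2 / n) =
      Real.exp (Real.pi * |y| / 2 + 59 / 60 * y ^ 2 / n) / Real.exp (n * PhiG) := by
    rw [← Real.exp_sub]
    congr 1
    ring
  rw [e8]
  have hE := Real.exp_pos (n * PhiG)
  rw [mul_div_assoc', mul_div_assoc', le_div_iff₀ hE]
  linarith

/-- the values at the nodes, with the denominators of Lagrange interpolation -/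
lemma node_T {n : ℕ} (hn : 1 ≤ n) (Q : ℚ[X]) (B : ℝ)
    (hB : ∀ y : ℝ, NG n y * ‖aeval (zl y) Q‖ * Real.exp (-(2 * Real.pi * |y|)) ≤ B * (1 + y ^ 2)⁻¹)
    (j : ℕ) (hj : j ≤ 8 * n - 2) :
    ‖aeval (zl (nd n j)) Q‖ * 2 ^ (8 * n - 2) ≤
      (B * (3 * (4 * (n : ℝ)) ^ 3 * Real.exp (1683 / 100 * n + 3 - (8 * n - 2) * Real.log n))) *
        ((j.factorial : ℝ) * ((8 * n - 2 - j).factorial : ℝ)) := by
  have hn1 : (1 : ℝ) ≤ n := by exact_mod_cast hn
  have hn0 : (0 : ℝ) < n := by linarith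
  have hB0 : 0 ≤ B := by
    have h := hB 0
    have h2 : 0 ≤ NG n 0 * ‖aeval (zl 0) Q‖ * Real.exp (-(2 * Real.pi * |0|)) :=
      mul_nonneg (mul_nonneg (NG_pos hn 0).le (norm_nonneg _)) (Real.exp_pos _).le
    have h3 : B * (1 + (0 : ℝ) ^ 2)⁻¹ = B := by norm_num
    rw [h3] at h
    exact h2.trans h
  have h1 := node_val hn Q B hB (nd n j)
  have hD : ((8 * n - 2 : ℕ) : ℝ) = 8 * n - 2 := by
    rw [Nat.cast_sub (by omega)]
    push_cast
    ring
  -- order the pair
  obtain ⟨a, b, hab, hle, hfac, hy⟩ : ∃ a b : ℕ, a + b = 8 * n - 2 ∧ b ≤ a ∧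
      (a.factorial : ℝ) * (b.factorial : ℝ) = (j.factorial : ℝ) * ((8 * n - 2 - j).factorial : ℝ) ∧
      |nd n j| = ((a : ℝ) - b) / 4 := by
    have hs : ((8 * n - 2 - j : ℕ) : ℝ) = 8 * n - 2 - j := by
      rw [Nat.cast_sub hj, hD]
    rcases le_total (8 * n - 2 - j) j with h | h
    · refine ⟨j, 8 * n - 2 - j, by omega, h, rfl, ?_⟩
      have h' : ((8 * n - 2 - j : ℕ) : ℝ) ≤ j := by exact_mod_cast h
      rw [hs] at h' ⊢
      unfold nd
      rw [abs_of_nonneg (by linarith)]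
      ring
    · refine ⟨8 * n - 2 - j, j, by omega, h, mul_comm _ _, ?_⟩
      have h' : (j : ℝ) ≤ ((8 * n - 2 - j : ℕ) : ℝ) := by exact_mod_cast h
      rw [hs] at h' ⊢
      unfold nd
      rw [abs_of_nonpos (by linarith)]
      ring
  have hab' : (a : ℝ) + b = 8 * n - 2 := by
    have : (((a + b : ℕ)) : ℝ) = ((8 * n - 2 : ℕ) : ℝ) := by rw [hab]
    rw [hD] at this
    push_cast at this
    exact this
  have hle' : (b : ℝ) ≤ a := by exact_mod_cast hle
  have hb0 : (0 : ℝ) ≤ b := Nat.cast_nonneg b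
  set i : ℝ := ((a : ℝ) - b) / 2 with hi
  have hi0 : 0 ≤ i := by rw [hi]; linarith
  have ha : (a : ℝ) = 4 * n - 1 + i := by rw [hi]; linarith
  have hb : (b : ℝ) = 4 * n - 1 - i := by rw [hi]; linarith
  have hi4 : i ≤ 4 * n := by linarith
  obtain ⟨s, t, hs, ht, hst, hlst, hineq⟩ := ineq_two (i / n) (by positivity) (by
    rw [div_le_iff₀ hn0]; exact hi4)
  have hent := ent_bound hn a b hab s t hs ht hst
  rw [hfac] at hent
  have hy2 : nd n j ^ 2 = i ^ 2 / 4 := by
    rw [← sq_abs, hy, hi]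
    ring
  rw [hy, hy2] at h1
  have h2 : (2 : ℝ) ^ (8 * n - 2) = Real.exp ((8 * n - 2) * Real.log 2) := by
    rw [← hD, Real.exp_nat_mul, Real.exp_log (by norm_num)]
  rw [h2]
  have hkey : -(n * PhiG) + Real.pi * ((↑a - ↑b) / 4) / 2 + 59 / 60 * (i ^ 2 / 4) / n + (8 * n - 2) * Real.log 2 ≤
      (1683 / 100 * n + 3 - (8 * n - 2) * Real.log n) +
      (a * Real.log s + b * Real.log t + (8 * n - 2) * Real.log n - 8 * n) := by
    have h3 := mul_le_mul_of_nonneg_right hineq hn0.le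
    have e3 : (-PhiG + Real.pi * (i / n) / 4 + 59 * (i / n) ^ 2 / 240 + 8 * Real.log 2 + 8 -
        ((4 + i / n) * Real.log s + (4 - i / n) * Real.log t)) * n =
        -(n * PhiG) + Real.pi * i / 4 + 59 * i ^ 2 / (240 * n) + 8 * n * Real.log 2 + 8 * n -
        ((4 * n + i) * Real.log s + (4 * n - i) * Real.log t) := by
      field_simp
    rw [e3] at h3
    have e4 : Real.pi * (((a : ℝ) - b) / 4) / 2 = Real.pi * i / 4 := by rw [hi]; ring
    have e5 : 59 / 60 * (i ^ 2 / 4) / (n : ℝ) = 59 * i ^ 2 / (240 * n) := by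
      field_simp
      ring
    rw [e4, e5, ha, hb]
    have hl2 : 0 ≤ Real.log 2 := Real.log_nonneg (by norm_num)
    linarith
  calc ‖aeval (zl (nd n j)) Q‖ * Real.exp ((8 * n - 2) * Real.log 2)
      ≤ (B * (3 * (4 * (n : ℝ)) ^ 3 *
        Real.exp (-(n * PhiG) + Real.pi * ((↑a - ↑b) / 4) / 2 + 59 / 60 * (i ^ 2 / 4) / n))) *
        Real.exp ((8 * n - 2) * Real.log 2) := by
        apply mul_le_mul_of_nonneg_right h1 (Real.exp_pos _).le
    _ = B * (3 * (4 * (n : ℝ)) ^ 3 *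
        Real.exp (-(n * PhiG) + Real.pi * ((↑a - ↑b) / 4) / 2 + 59 / 60 * (i ^ 2 / 4) / n + (8 * n - 2) * Real.log 2)) := by
        rw [Real.exp_add _ ((8 * n - 2) * Real.log 2)]
        ring
    _ ≤ B * (3 * (4 * (n : ℝ)) ^ 3 * (Real.exp (1683 / 100 * n + 3 - (8 * n - 2) * Real.log n) *
        Real.exp (a * Real.log s + b * Real.log t + (8 * n - 2) * Real.log n - 8 * n))) := by
        rw [← Real.exp_add]
        gcongr
    _ ≤ B * (3 * (4 * (n : ℝ)) ^ 3 * (Real.exp (1683 / 100 * n + 3 - (8 * n - 2) * Real.log n) *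
        ((j.factorial : ℝ) * ((8 * n - 2 - j).factorial : ℝ)))) := by
        gcongr
    _ = _ := by ring

end

end Pool.Agent.TH120.ZE
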